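import Pool.Agent.H21.EW.Supply

/-!
Even wheels, part 3: dense graphs contain all short even cycles (linear length).
-/

namespace Pool.Agent.H21.EW

open Finset

variable {V : Type*} [Fintype V] [DecidableEq V]

/-- common neighbours inside `U` -/
def cod (G : SimpleGraph V) [DecidableRel G.Adj] (U : Finset V) (x y : V) : ℕ :=
  (U ∩ G.neighborFinset x ∩ G.neighborFinset y).card

theorem cod_comm (G : SimpleGraph V) [DecidableRel G.Adj] (U : Finset V) (x y : V) :
    cod G U x y = cod G U y x := by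
  unfold cod
  congr 1
  ext z
  simp only [mem_inter]
  tauto

/-- number of bad pairs in the neighbourhood of `w` -/
def badP (G : SimpleGraph V) [DecidableRel G.Adj] (U : Finset V) (k : ℕ) (w : V) : ℕ :=
  (((G.neighborFinset w ∩ U) ×ˢ (G.neighborFinset w ∩ U)).filter
    (fun p => cod G U p.1 p.2 < 3 * k)).card

theorem sum_badP (G : SimpleGraph V) [DecidableRel G.Adj] (U : Finset V) (k : ℕ) :
    ∑ w ∈ U, badP G U k w ≤ 3 * k * (Fintype.card V) ^ 2 := by
  set Bd := (U ×ˢ U).filter (fun p => cod G U p.1 p.2 < 3 * k) with hBd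
  have h1 : ∀ w, badP G U k w =
      ∑ p ∈ Bd, if (p.1 ∈ G.neighborFinset w ∧ p.2 ∈ G.neighborFinset w) then 1 else 0 := by
    intro w
    unfold badP
    rw [Finset.card_eq_sum_ones, ← Finset.sum_filter]
    apply Finset.sum_congr _ (fun _ _ => rfl)
    ext p
    simp only [hBd, mem_filter, mem_product, mem_inter]
    tauto
  simp only [h1]
  rw [Finset.sum_comm]
  have h2 : ∀ p ∈ Bd, (∑ w ∈ U,
      if (p.1 ∈ G.neighborFinset w ∧ p.2 ∈ G.neighborFinset w) then 1 else 0) ≤ 3 * k := by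
    intro p hp
    have h3 : (∑ w ∈ U,
        if (p.1 ∈ G.neighborFinset w ∧ p.2 ∈ G.neighborFinset w) then 1 else 0) =
        cod G U p.1 p.2 := by
      unfold cod
      rw [Finset.card_eq_sum_ones, ← Finset.sum_filter]
      apply Finset.sum_congr _ (fun _ _ => rfl)
      ext w
      simp only [mem_filter, mem_inter, SimpleGraph.mem_neighborFinset, G.adj_comm w]
      tauto
    rw [h3]
    exact (mem_filter.1 hp).2.le
  refine le_trans (Finset.sum_le_sum h2) ?_
  rw [Finset.sum_const, smul_eq_mul, mul_comm]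
  apply Nat.mul_le_mul_left
  refine le_trans (Finset.card_filter_le _ _) ?_
  rw [Finset.card_product, ← sq]
  exact Nat.pow_le_pow_left (Finset.card_le_univ U) 2

/-- greedy closed chain for a relation with few exceptions -/
theorem good_chain (Rl : V → V → Prop) [DecidableRel Rl] (U' : Finset V) (D k : ℕ)
    (hsym : ∀ x y, Rl x y → Rl y x)
    (hbad : ∀ x ∈ U', 10 * (U'.filter (fun y => ¬ Rl x y)).card ≤ D)
    (hcard : 19 * D ≤ 20 * U'.card) (hk : 2 * k < D) (y0 : V) (hy0 : y0 ∈ U') :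
    ∀ j ≤ k, ∃ zs : List V, zs.length = j ∧ zs.Nodup ∧ (∀ z ∈ zs, z ∈ U') ∧ y0 ∉ zs ∧
      List.IsChain Rl (zs ++ [y0]) ∧ ∀ z ∈ zs.head?, Rl y0 z := by
  intro j
  induction j with
  | zero =>
    intro _
    exact ⟨[], rfl, List.nodup_nil, by simp, by simp, by simp, by simp⟩
  | succ j ih =>
    intro hj
    obtain ⟨zs, h1, h2, h3, h4, h5, h6⟩ := ih (by omega)
    obtain ⟨y', hy'⟩ : ∃ y', (zs ++ [y0]).head? = some y' := by
      cases zs with
      | nil => exact ⟨y0, rfl⟩
      | cons a l => exact ⟨a, rfl⟩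
    have hy'U : y' ∈ U' := by
      have hmem : y' ∈ zs ++ [y0] := List.mem_of_mem_head? hy'
      rw [List.mem_append] at hmem
      rcases hmem with hx | hx
      · exact h3 y' hx
      · simp only [List.mem_singleton] at hx
        subst hx
        exact hy0
    have hsub : U' ⊆ (U'.filter (fun z => Rl y0 z ∧ Rl y' z ∧ z ≠ y0 ∧ z ∉ zs)) ∪
        (U'.filter (fun y => ¬ Rl y0 y)) ∪ (U'.filter (fun y => ¬ Rl y' y)) ∪
        (insert y0 zs.toFinset) := by
      intro z hz
      simp only [mem_union, mem_filter, mem_insert, List.mem_toFinset]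
      tauto
    have hex : (U'.filter (fun z => Rl y0 z ∧ Rl y' z ∧ z ≠ y0 ∧ z ∉ zs)).Nonempty := by
      rw [← Finset.card_pos]
      have c1 := Finset.card_le_card hsub
      have c2 := Finset.card_union_le ((U'.filter (fun z => Rl y0 z ∧ Rl y' z ∧ z ≠ y0 ∧
        z ∉ zs)) ∪ (U'.filter (fun y => ¬ Rl y0 y)) ∪ (U'.filter (fun y => ¬ Rl y' y)))
        (insert y0 zs.toFinset)
      have c3 := Finset.card_union_le ((U'.filter (fun z => Rl y0 z ∧ Rl y' z ∧ z ≠ y0 ∧
        z ∉ zs)) ∪ (U'.filter (fun y => ¬ Rl y0 y))) (U'.filter (fun y => ¬ Rl y' y))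
      have c4 := Finset.card_union_le ((U'.filter (fun z => Rl y0 z ∧ Rl y' z ∧ z ≠ y0 ∧
        z ∉ zs))) (U'.filter (fun y => ¬ Rl y0 y))
      have c5 := hbad y0 hy0
      have c6 := hbad y' hy'U
      have c7 := Finset.card_insert_le y0 zs.toFinset
      have c8 := List.toFinset_card_le zs
      omega
    obtain ⟨z, hz⟩ := hex
    simp only [mem_filter] at hz
    obtain ⟨hzU, hz1, hz2, hz3, hz4⟩ := hz
    refine ⟨z :: zs, by simp [h1], List.nodup_cons.2 ⟨hz4, h2⟩, ?_, ?_, ?_, ?_⟩
    · intro w hw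
      rcases List.mem_cons.1 hw with rfl | hw
      · exact hzU
      · exact h3 w hw
    · intro hmem
      rcases List.mem_cons.1 hmem with h | h
      · exact hz3 h.symm
      · exact h4 h
    · rw [List.cons_append, List.isChain_cons]
      refine ⟨?_, h5⟩
      intro w hw
      rw [hy'] at hw
      simp only [Option.mem_def, Option.some.injEq] at hw
      subst hw
      exact hsym _ _ hz2
    · intro w hw
      simp only [List.head?_cons, Option.mem_def, Option.some.injEq] at hw
      subst hw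
      exact hz1

theorem dense_cycle (G : SimpleGraph V) [DecidableRel G.Adj] (U : Finset V) (k n : ℕ)
    (hn : Fintype.card V = n) (hk : 2 ≤ k) (hkn : 10 ^ 9 * k ≤ n)
    (h : n ^ 2 ≤ 500 * ∑ u ∈ U, (G.neighborFinset u ∩ U).card) : ClosedIn G U (2 * k) := by
  have hn0 : 0 < n := by omega
  set D : V → ℕ := fun u => (G.neighborFinset u ∩ U).card with hD
  set S := ∑ u ∈ U, D u with hS
  have hUne : U.Nonempty := by
    by_contra hne
    rw [Finset.not_nonempty_iff_eq_empty] at hne
    rw [hS, hne] at h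
    simp at h
    omega
  have hUn : U.card ≤ n := by rw [← hn]; exact Finset.card_le_univ U
  have hCS : S ^ 2 ≤ n * ∑ u ∈ U, (D u) ^ 2 := by
    have := sq_sum_le_card_mul_sum_sq (s := U) (f := D)
    calc S ^ 2 ≤ U.card * ∑ u ∈ U, (D u) ^ 2 := this
      _ ≤ _ := Nat.mul_le_mul_right _ hUn
  have hbadS := sum_badP G U k
  rw [hn] at hbadS
  -- choose w
  have hw : ∃ w ∈ U, 6 * k * n ^ 2 + 2 * n * badP G U k w ≤ 3 * k * 10 ^ 6 * (D w) ^ 2 := by
    by_contra hcon
    push Not at hcon
    have hlt : ∑ w ∈ U, 3 * k * 10 ^ 6 * (D w) ^ 2 <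
        ∑ w ∈ U, (6 * k * n ^ 2 + 2 * n * badP G U k w) :=
      Finset.sum_lt_sum_of_nonempty hUne hcon
    rw [Finset.sum_add_distrib, Finset.sum_const, smul_eq_mul, ← Finset.mul_sum,
      ← Finset.mul_sum] at hlt
    have h1 : U.card * (6 * k * n ^ 2) ≤ n * (6 * k * n ^ 2) := Nat.mul_le_mul_right _ hUn
    have h2 : 2 * n * ∑ w ∈ U, badP G U k w ≤ 2 * n * (3 * k * n ^ 2) :=
      Nat.mul_le_mul_left _ hbadS
    -- n^4 ≤ 250000 S^2 ≤ 250000 n Σ
    have h3 : n ^ 4 ≤ 250000 * (n * ∑ u ∈ U, (D u) ^ 2) := by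
      calc n ^ 4 = (n ^ 2) ^ 2 := by ring
        _ ≤ (500 * S) ^ 2 := Nat.pow_le_pow_left h 2
        _ = 250000 * S ^ 2 := by ring
        _ ≤ _ := Nat.mul_le_mul_left _ hCS
    have h4 : n ^ 3 ≤ 250000 * ∑ u ∈ U, (D u) ^ 2 := by
      have : n * n ^ 3 ≤ n * (250000 * ∑ u ∈ U, (D u) ^ 2) := by
        calc n * n ^ 3 = n ^ 4 := by ring
          _ ≤ _ := h3
          _ = _ := by ring
      exact Nat.le_of_mul_le_mul_left this hn0
    have h5 : 12 * k * n ^ 3 ≤ 3 * k * 10 ^ 6 * ∑ u ∈ U, (D u) ^ 2 := by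
      calc 12 * k * n ^ 3 ≤ 12 * k * (250000 * ∑ u ∈ U, (D u) ^ 2) :=
            Nat.mul_le_mul_left _ h4
        _ = _ := by ring
    have h6 : n * (6 * k * n ^ 2) + 2 * n * (3 * k * n ^ 2) = 12 * k * n ^ 3 := by ring
    omega
  obtain ⟨w, hwU, hw⟩ := hw
  set Dw := D w with hDw
  set bw := badP G U k w with hbw
  have hDbig : n ≤ 1000 * Dw := by
    by_contra hlt
    push Not at hlt
    have h1 : 6 * k * n ^ 2 ≤ 3 * k * 10 ^ 6 * Dw ^ 2 := le_trans (Nat.le_add_right _ _) hw
    have h2 : (1000 * Dw) ^ 2 < n ^ 2 := Nat.pow_lt_pow_left hlt (by norm_num)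
    have h3 : 3 * k * 10 ^ 6 * Dw ^ 2 = 3 * k * (1000 * Dw) ^ 2 := by ring
    rw [h3] at h1
    have h4 : 3 * k * (1000 * Dw) ^ 2 < 3 * k * n ^ 2 :=
      Nat.mul_lt_mul_of_pos_left h2 (by omega)
    have h5 : 6 * k * n ^ 2 = 3 * k * n ^ 2 + 3 * k * n ^ 2 := by ring
    omega
  have hbadsmall : 200 * bw ≤ Dw ^ 2 := by
    have h1 : 2 * n * bw ≤ 3 * k * 10 ^ 6 * Dw ^ 2 := le_trans (Nat.le_add_left _ _) hw
    have h2 : 10 ^ 9 * k * (2 * bw) ≤ n * (2 * bw) := Nat.mul_le_mul_right _ hkn
    have h3 : k * (10 ^ 9 * 2 * bw) ≤ k * (3 * 10 ^ 6 * Dw ^ 2) := by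
      calc k * (10 ^ 9 * 2 * bw) = 10 ^ 9 * k * (2 * bw) := by ring
        _ ≤ n * (2 * bw) := h2
        _ = 2 * n * bw := by ring
        _ ≤ 3 * k * 10 ^ 6 * Dw ^ 2 := h1
        _ = _ := by ring
    have h4 := Nat.le_of_mul_le_mul_left h3 (by omega)
    omega
  -- the set U'
  set W := G.neighborFinset w ∩ U with hW
  have hWc : W.card = Dw := rfl
  set bp : V → ℕ := fun x => (W.filter (fun y => cod G U x y < 3 * k)).card with hbp
  have hsumbp : ∑ x ∈ W, bp x = bw := by
    rw [hbw, badP, Finset.card_filter, Finset.sum_product]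
    apply Finset.sum_congr rfl
    intro x _
    rw [hbp]
    simp only [Finset.card_filter]
    rfl
  set U' := W.filter (fun x => 10 * bp x ≤ Dw) with hU'
  set C := W.filter (fun x => ¬ 10 * bp x ≤ Dw) with hC
  have hCU : U'.card + C.card = Dw := by
    rw [hU', hC, Finset.card_filter_add_card_filter_not, hWc]
  have hDw0 : 0 < Dw := by omega
  have hCsmall : 20 * C.card ≤ Dw := by
    have h1 : C.card * Dw ≤ ∑ x ∈ C, 10 * bp x := by
      rw [← smul_eq_mul, ← Finset.sum_const]
      apply Finset.sum_le_sum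
      intro x hx
      have := (mem_filter.1 hx).2
      omega
    have h2 : ∑ x ∈ C, 10 * bp x ≤ 10 * bw := by
      rw [← Finset.mul_sum, ← hsumbp]
      apply Nat.mul_le_mul_left
      apply Finset.sum_le_sum_of_subset
      exact Finset.filter_subset _ _
    have h3 : 20 * C.card * Dw ≤ Dw * Dw := by
      calc 20 * C.card * Dw = 20 * (C.card * Dw) := by ring
        _ ≤ 20 * (10 * bw) := Nat.mul_le_mul_left _ (le_trans h1 h2)
        _ = 200 * bw := by ring
        _ ≤ Dw ^ 2 := hbadsmall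
        _ = _ := by ring
    exact Nat.le_of_mul_le_mul_right h3 hDw0
  have hU'ne : U'.Nonempty := by
    rw [← Finset.card_pos]
    omega
  obtain ⟨y0, hy0⟩ := hU'ne
  have hU'W : U' ⊆ W := Finset.filter_subset _ _
  have hWU : W ⊆ U := Finset.inter_subset_right
  obtain ⟨zs, z1, z2, z3, z4, z5, z6⟩ := good_chain
    (fun x y => 3 * k ≤ (U ∩ G.neighborFinset x ∩ G.neighborFinset y).card) U' Dw k
    (fun x y hxy => by
      have := cod_comm G U x y
      unfold cod at this
      omega)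
    (fun x hx => by
      have h1 := (mem_filter.1 hx).2
      refine le_trans (Nat.mul_le_mul_left 10 (Finset.card_le_card ?_)) h1
      intro y hy
      rw [mem_filter] at hy ⊢
      refine ⟨hU'W hy.1, ?_⟩
      have := hy.2
      unfold cod
      omega)
    (by omega) (by omega) y0 hy0 (k - 1) (by omega)
  have hzne : zs ≠ [] := by
    intro h
    rw [h] at z1
    simp at z1
    omega
  obtain ⟨L, l1, l2, l3, l4, l5⟩ := triv G U (3 * k) y0 (y0 :: zs) (insert y0 zs.toFinset)
    (List.nodup_cons.2 ⟨z4, z2⟩)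
    (fun x hx => by
      rw [mem_insert, List.mem_toFinset]
      exact List.mem_cons.1 hx)
    (by
      have := Finset.card_insert_le y0 zs.toFinset
      have := List.toFinset_card_le zs
      simp only [List.length_cons]
      omega)
    (by
      rw [List.cons_append, List.isChain_cons]
      refine ⟨?_, z5⟩
      intro y hy
      apply z6
      cases zs with
      | nil => exact absurd rfl hzne
      | cons a l => simpa using hy)
  refine ⟨L, l1, by rw [l2, List.length_cons, z1]; omega, ?_, y0, ?_, l5⟩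
  · intro x hx
    rcases l3 x hx with h | h
    · rcases List.mem_cons.1 h with rfl | h
      · exact hWU (hU'W hy0)
      · exact hWU (hU'W (z3 x h))
    · exact h.1
  · cases L with
    | nil =>
      simp only [List.length_nil, List.length_cons] at l2
      omega
    | cons a l => simpa using l4

end Pool.Agent.H21.EW
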