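import Pool.Agent.H21.EW.Upper

/-!
Even wheels, part 6: sharpness of the threshold.
-/

namespace Pool.Agent.H21.EW

open Finset

theorem symm_set (L r : ℕ) (hr : r < L) (hpar : Even (r * L)) :
    ∃ D : Finset (ZMod L), D.card = r ∧ (0 : ZMod L) ∉ D ∧ ∀ x ∈ D, -x ∈ D := by
  set h := r / 2 with hh
  set T : Finset ℕ := (Icc 1 h ∪ Icc (L - h) (L - 1)) ∪ (if r % 2 = 1 then {L / 2} else ∅)
    with hT
  have hmem : ∀ j, j ∈ T ↔ (1 ≤ j ∧ j ≤ h) ∨ (L - h ≤ j ∧ j ≤ L - 1) ∨
      (r % 2 = 1 ∧ j = L / 2) := by
    intro j
    rw [hT, mem_union, mem_union, mem_Icc, mem_Icc, or_assoc]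
    split_ifs with hc
    · simp [hc]
    · simp [hc]
  have hLeven : r % 2 = 1 → L % 2 = 0 := by
    intro hr1
    rw [Nat.even_mul, Nat.even_iff, Nat.even_iff] at hpar
    omega
  have hrange : ∀ j ∈ T, 1 ≤ j ∧ j < L := by
    intro j hj
    rw [hmem] at hj
    rcases hj with hj | hj | hj
    · omega
    · omega
    · have := hLeven hj.1
      omega
  have hTcard : T.card = r := by
    have d1 : Disjoint (Icc 1 h) (Icc (L - h) (L - 1)) := by
      rw [Finset.disjoint_left]
      intro j hj hj'
      rw [mem_Icc] at hj hj'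
      omega
    have d2 : Disjoint (Icc 1 h ∪ Icc (L - h) (L - 1))
        (if r % 2 = 1 then ({L / 2} : Finset ℕ) else ∅) := by
      split_ifs with hc
      · rw [Finset.disjoint_singleton_right, mem_union, mem_Icc, mem_Icc]
        have := hLeven hc
        omega
      · exact Finset.disjoint_empty_right _
    rw [hT, Finset.card_union_of_disjoint d2, Finset.card_union_of_disjoint d1, Nat.card_Icc,
      Nat.card_Icc]
    split_ifs with hc
    · rw [Finset.card_singleton]; omega
    · rw [Finset.card_empty]; omega
  have hinj : ∀ i j : ℕ, i < L → j < L → (i : ZMod L) = (j : ZMod L) → i = j := by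
    intro i j hi hj hij
    rw [ZMod.natCast_eq_natCast_iff'] at hij
    rwa [Nat.mod_eq_of_lt hi, Nat.mod_eq_of_lt hj] at hij
  refine ⟨T.image (fun j : ℕ => (j : ZMod L)), ?_, ?_, ?_⟩
  · rw [Finset.card_image_of_injOn, hTcard]
    intro i hi j hj hij
    exact hinj i j (hrange i hi).2 (hrange j hj).2 hij
  · intro h0
    rw [mem_image] at h0
    obtain ⟨j, hj, hj0⟩ := h0
    have := hinj j 0 (hrange j hj).2 (by omega) (by simpa using hj0)
    have := (hrange j hj).1
    omega
  · intro x hx
    rw [mem_image] at hx ⊢
    obtain ⟨j, hj, rfl⟩ := hx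
    refine ⟨L - j, ?_, ?_⟩
    · have h1 := hrange j hj
      rw [hmem] at hj ⊢
      rcases hj with hj | hj | hj
      · right; left; omega
      · left; omega
      · right; right
        have := hLeven hj.1
        omega
    · rw [Nat.cast_sub (hrange j hj).2.le, ZMod.natCast_self, zero_sub]

/-- join of an independent set of size `p` and a graph `H` -/
def J {B : Type*} (p : ℕ) (H : SimpleGraph B) : SimpleGraph (Fin p ⊕ B) where
  Adj := fun x y => match x, y with
    | Sum.inl _, Sum.inl _ => False
    | Sum.inl _, Sum.inr _ => True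
    | Sum.inr _, Sum.inl _ => True
    | Sum.inr x, Sum.inr y => H.Adj x y
  symm := ⟨by
    rintro (x | x) (y | y) h
    · exact h
    · trivial
    · trivial
    · exact H.symm.symm _ _ h⟩
  loopless := ⟨by
    rintro (x | x) h
    · exact h
    · exact H.loopless.irrefl _ h⟩

theorem J_noWheel {B ι : Type*} [Fintype B] [DecidableEq B] (p k : ℕ) (hk : 1 ≤ k)
    (H : SimpleGraph B) [DecidableRel H.Adj] (comp : B → ι)
    (hcomp : ∀ x y, H.Adj x y → comp x = comp y)
    (hfib : ∀ z : B, ∃ F : Finset B, F.card < 2 * k ∧ ∀ y, comp y = comp z → y ∈ F)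
    (hdeg : ∀ x, (H.neighborFinset x).card ≤ k - 1) : ¬ HasWheel (J p H) k := by
  classical
  rintro ⟨h, c, hinj, hhub, hcyc⟩
  have : NeZero (2 * k) := ⟨by omega⟩
  rcases h with a | b
  · have hb : ∀ i, ∃ b, c i = Sum.inr b := by
      intro i
      have := hhub i
      rcases hc : c i with x | x
      · rw [hc] at this
        exact absurd this (by simp [J])
      · exact ⟨x, rfl⟩
    choose b hb using hb
    have hadj : ∀ i, comp (b i) = comp (b (i + 1)) := by
      intro i
      have := hcyc i
      rw [hb i, hb (i + 1)] at this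
      exact hcomp _ _ this
    have hall : ∀ j : ℕ, comp (b (j : ZMod (2 * k))) = comp (b 0) := by
      intro j
      induction j with
      | zero => simp
      | succ j ih =>
        rw [← ih, hadj (j : ZMod (2 * k))]
        simp
    obtain ⟨F, hF1, hF2⟩ := hfib (b 0)
    have hbinj : Function.Injective b := by
      intro i j hij
      apply hinj
      rw [hb i, hb j, hij]
    have h1 : (univ : Finset (ZMod (2 * k))).card ≤ F.card := by
      apply Finset.card_le_card_of_injOn b
      · intro i _
        apply hF2
        have := hall i.val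
        rw [ZMod.natCast_zmod_val] at this
        exact this
      · exact hbinj.injOn
    rw [Finset.card_univ, ZMod.card] at h1
    omega
  · set I : Finset (ZMod (2 * k)) := univ.filter (fun i => ∃ a, c i = Sum.inl a) with hI
    have h1 : Iᶜ.card ≤ (H.neighborFinset b).card := by
      have hb : ∀ i ∈ Iᶜ, ∃ b', c i = Sum.inr b' := by
        intro i hi
        rw [hI, mem_compl, mem_filter] at hi
        rcases hc : c i with x | x
        · exact absurd ⟨mem_univ _, x, hc⟩ hi
        · exact ⟨x, rfl⟩
      apply Finset.card_le_card_of_injOn (fun i => (c i).elim (fun _ => b) (fun x => x))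
      · intro i hi
        obtain ⟨b', hb'⟩ := hb i hi
        have h2 := hhub i
        rw [hb'] at h2
        simp only [hb', Sum.elim_inr, mem_coe, SimpleGraph.mem_neighborFinset]
        exact h2
      · intro i hi j hj hij
        obtain ⟨b', hb'⟩ := hb i hi
        obtain ⟨b'', hb''⟩ := hb j hj
        simp only [hb', hb'', Sum.elim_inr] at hij
        apply hinj
        rw [hb', hb'', hij]
    have h2 : I.card ≤ Iᶜ.card := by
      apply Finset.card_le_card_of_injOn (fun i => i + 1)
      · intro i hi
        rw [mem_coe, hI, mem_filter] at hi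
        obtain ⟨_, a, ha⟩ := hi
        rw [mem_coe, mem_compl, hI, mem_filter]
        rintro ⟨_, a', ha'⟩
        have := hcyc i
        rw [ha, ha'] at this
        exact this
      · intro i _ j _ hij
        exact add_right_cancel hij
    have h3 : I.card + Iᶜ.card = 2 * k := by
      rw [Finset.card_add_card_compl, ZMod.card]
    have h4 := hdeg b
    omega

theorem J_deg_inl {B : Type*} [Fintype B] [DecidableEq B] (p : ℕ) (H : SimpleGraph B)
    [DecidableRel (J p H).Adj] (a : Fin p) :
    ((J p H).neighborFinset (Sum.inl a)).card = Fintype.card B := by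
  have : (J p H).neighborFinset (Sum.inl a) = univ.map ⟨Sum.inr, Sum.inr_injective⟩ := by
    ext x
    rw [SimpleGraph.mem_neighborFinset]
    rcases x with x | x
    · simp [J]
    · simp [J]
  rw [this, Finset.card_map, Finset.card_univ]

theorem J_deg_inr {B : Type*} [Fintype B] [DecidableEq B] (p : ℕ) (H : SimpleGraph B)
    [DecidableRel (J p H).Adj] [DecidableRel H.Adj] (b : B) :
    ((J p H).neighborFinset (Sum.inr b)).card = p + (H.neighborFinset b).card := by
  have : (J p H).neighborFinset (Sum.inr b) =
      (univ : Finset (Fin p)).disjSum (H.neighborFinset b) := by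
    ext x
    rw [SimpleGraph.mem_neighborFinset]
    rcases x with x | x
    · simp [J]
    · simp [J]
  rw [this, Finset.card_disjSum, Finset.card_univ, Fintype.card_fin]

/-- disjoint union of `c` complete graphs `K_k` and a circulant graph -/
def blocks (c k L : ℕ) (D : Finset (ZMod L)) (h0 : (0 : ZMod L) ∉ D)
    (hs : ∀ x ∈ D, -x ∈ D) : SimpleGraph ((Fin c × Fin k) ⊕ ZMod L) where
  Adj := fun x y => match x, y with
    | Sum.inl x, Sum.inl y => x.1 = y.1 ∧ x.2 ≠ y.2
    | Sum.inl _, Sum.inr _ => False
    | Sum.inr _, Sum.inl _ => False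
    | Sum.inr x, Sum.inr y => y - x ∈ D
  symm := ⟨by
    rintro (x | x) (y | y) h
    · exact ⟨h.1.symm, h.2.symm⟩
    · exact h
    · exact h
    · have := hs _ h
      rw [neg_sub] at this
      exact this⟩
  loopless := ⟨by
    rintro (x | x) h
    · exact h.2 rfl
    · have h' : x - x ∈ D := h
      rw [sub_self] at h'
      exact h0 h'⟩

theorem blocks_deg_inl (c k L : ℕ) [NeZero L] (D : Finset (ZMod L)) (h0 : (0 : ZMod L) ∉ D)
    (hs : ∀ x ∈ D, -x ∈ D) [DecidableRel (blocks c k L D h0 hs).Adj] (x : Fin c × Fin k) :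
    ((blocks c k L D h0 hs).neighborFinset (Sum.inl x)).card = k - 1 := by
  have : (blocks c k L D h0 hs).neighborFinset (Sum.inl x) =
      ((univ : Finset (Fin k)).erase x.2).map
        ⟨fun y => Sum.inl (x.1, y), fun y z h => by simpa using h⟩ := by
    ext y
    rw [SimpleGraph.mem_neighborFinset]
    rcases y with y | y
    · simp only [blocks, mem_map, mem_erase, mem_univ, and_true]
      constructor
      · rintro ⟨h1, h2⟩
        refine ⟨y.2, h2.symm, ?_⟩
        change (Sum.inl (x.1, y.2) : (Fin c × Fin k) ⊕ ZMod L) = Sum.inl y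
        rw [h1]
      · rintro ⟨z, hz, hzy⟩
        have h3 : (Sum.inl (x.1, z) : (Fin c × Fin k) ⊕ ZMod L) = Sum.inl y := hzy
        rw [Sum.inl.injEq] at h3
        subst h3
        exact ⟨rfl, hz.symm⟩
    · simp [blocks]
  rw [this, Finset.card_map, Finset.card_erase_of_mem (mem_univ _), Finset.card_univ,
    Fintype.card_fin]

theorem blocks_deg_inr (c k L : ℕ) [NeZero L] (D : Finset (ZMod L)) (h0 : (0 : ZMod L) ∉ D)
    (hs : ∀ x ∈ D, -x ∈ D) [DecidableRel (blocks c k L D h0 hs).Adj] (x : ZMod L) :
    ((blocks c k L D h0 hs).neighborFinset (Sum.inr x)).card = D.card := by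
  have : (blocks c k L D h0 hs).neighborFinset (Sum.inr x) =
      D.map ⟨fun y => Sum.inr (x + y), fun y z h => by simpa using h⟩ := by
    ext y
    rw [SimpleGraph.mem_neighborFinset]
    rcases y with y | y
    · simp [blocks]
    · simp only [blocks, mem_map]
      constructor
      · intro h
        refine ⟨y - x, h, ?_⟩
        change (Sum.inr (x + (y - x)) : (Fin c × Fin k) ⊕ ZMod L) = Sum.inr y
        rw [add_sub_cancel]
      · rintro ⟨z, hz, hzy⟩
        have h3 : (Sum.inr (x + z) : (Fin c × Fin k) ⊕ ZMod L) = Sum.inr y := hzy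
        rw [Sum.inr.injEq] at h3
        subst h3
        rw [add_sub_cancel_left]
        exact hz
  rw [this, Finset.card_map]

theorem lower (n k : ℕ) (hk : 3 ≤ k) (hkn : 3 * k < n) :
    ∃ (G : SimpleGraph (Fin n)) (_ : DecidableRel G.Adj),
      G.minDegree = thr n k - 1 ∧ ¬ HasWheel G k := by
  classical
  set m := thr n k - 1 with hm
  have hd1 : n + k ≤ 2 * thr n k + 1 := by unfold thr; split_ifs <;> omega
  have hd2 : 2 * thr n k ≤ n + k + 1 := by unfold thr; split_ifs <;> omega
  have hmk : k ≤ m := by omega
  have hmn : m < n := by omega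
  set c := m / k - 1 with hc
  set L := k + m % k with hL
  have hLlt : L < 2 * k := by
    have := Nat.mod_lt m (show 0 < k by omega)
    omega
  have hcL : c * k + L = m := by
    have h1 := Nat.div_add_mod m k
    have h2 : 1 ≤ m / k := Nat.div_pos hmk (by omega)
    have h3 : m / k = c + 1 := by omega
    rw [h3] at h1
    rw [hL]
    calc c * k + (k + m % k) = k * (c + 1) + m % k := by ring
      _ = m := h1
  -- the degree of the circulant block
  obtain ⟨r, hr1, hr2, hr3⟩ : ∃ r, r ≤ k - 1 ∧ Even (r * L) ∧ m ≤ n - m + r := by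
    by_cases hpar : Even ((k - 1) * L)
    · exact ⟨k - 1, le_refl _, hpar, by omega⟩
    · have hpar' : (k - 1) % 2 = 1 ∧ L % 2 = 1 := by
        rw [Nat.even_mul, Nat.even_iff, Nat.even_iff] at hpar
        omega
      have hmodd : m % 2 = 1 := by
        obtain ⟨j, hj⟩ : ∃ j, k = 2 * j := ⟨k / 2, by omega⟩
        have : c * k = 2 * (c * j) := by rw [hj]; ring
        omega
      refine ⟨k - 2, by omega, ?_, ?_⟩
      · rw [Nat.even_mul, Nat.even_iff]
        omega
      · have ht : thr n k % 2 = 0 := by omega
        have : 2 * thr n k ≤ n + k := by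
          unfold thr at ht ⊢
          split_ifs at ht ⊢ with hc
          · omega
          · omega
        omega
  have : NeZero L := ⟨by omega⟩
  obtain ⟨D, hD1, hD2, hD3⟩ := symm_set L r (by omega) hr2
  set H := blocks c k L D hD2 hD3 with hH
  set p := n - m with hp
  have hcardB : Fintype.card ((Fin c × Fin k) ⊕ ZMod L) = m := by
    rw [Fintype.card_sum, Fintype.card_prod, Fintype.card_fin, Fintype.card_fin, ZMod.card, hcL]
  have hcard : Fintype.card (Fin p ⊕ ((Fin c × Fin k) ⊕ ZMod L)) = n := by
    rw [Fintype.card_sum, hcardB, Fintype.card_fin]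
    omega
  let e : Fin n ≃ (Fin p ⊕ ((Fin c × Fin k) ⊕ ZMod L)) :=
    (Fintype.equivFinOfCardEq hcard).symm
  set G' := J p H with hG'
  refine ⟨G'.comap e, inferInstance, ?_, ?_⟩
  · have hdegs : ∀ v, (G'.comap e).degree v = G'.degree (e v) := by
      intro v
      exact ((SimpleGraph.Iso.comap e G').degree_eq v).symm
    have hHdeg : ∀ b, m ≤ p + (H.neighborFinset b).card := by
      intro b
      rcases b with b | b
      · rw [hH, blocks_deg_inl]
        omega
      · rw [hH, blocks_deg_inr, hD1]
        omega
    have hall : ∀ w, m ≤ G'.degree w := by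
      intro w
      rw [← SimpleGraph.card_neighborFinset_eq_degree]
      rcases w with w | w
      · rw [hG', J_deg_inl, hcardB]
      · rw [hG', J_deg_inr]
        exact hHdeg w
    have hp0 : 0 < p := by omega
    have : Nonempty (Fin n) := ⟨⟨0, by omega⟩⟩
    apply le_antisymm
    · have h1 := (G'.comap e).minDegree_le_degree (e.symm (Sum.inl ⟨0, hp0⟩))
      rw [hdegs, Equiv.apply_symm_apply, ← SimpleGraph.card_neighborFinset_eq_degree, hG',
        J_deg_inl, hcardB] at h1
      exact h1
    · apply SimpleGraph.le_minDegree_of_forall_le_degree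
      intro v
      rw [hdegs]
      exact hall _
  · rintro ⟨h, f, h1, h2, h3⟩
    refine J_noWheel (ι := Option (Fin c)) p k (by omega) H
      (fun x => x.elim (fun y => some y.1) (fun _ => none)) ?_ ?_ ?_
      ⟨e h, fun i => e (f i), e.injective.comp h1, fun i => h2 i, fun i => h3 i⟩
    · rintro (x | x) (y | y) hxy
      · simp only [Sum.elim_inl, Option.some.injEq]
        exact hxy.1
      · exact absurd hxy (by simp [hH, blocks])
      · exact absurd hxy (by simp [hH, blocks])
      · rfl
    · rintro (z | z)
      · refine ⟨(univ : Finset (Fin k)).map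
          ⟨fun y => Sum.inl (z.1, y), fun y z h => by simpa using h⟩, ?_, ?_⟩
        · rw [Finset.card_map, Finset.card_univ, Fintype.card_fin]
          omega
        · rintro (y | y) hy
          · simp only [Sum.elim_inl, Option.some.injEq] at hy
            simp only [mem_map, mem_univ, true_and]
            refine ⟨y.2, ?_⟩
            change (Sum.inl (z.1, y.2) : (Fin c × Fin k) ⊕ ZMod L) = Sum.inl y
            rw [← hy]
          · simp at hy
      · refine ⟨(univ : Finset (ZMod L)).map ⟨Sum.inr, Sum.inr_injective⟩, ?_, ?_⟩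
        · rw [Finset.card_map, Finset.card_univ, ZMod.card]
          exact hLlt
        · rintro (y | y) hy
          · simp at hy
          · simp
    · rintro (x | x)
      · rw [hH, blocks_deg_inl]
      · rw [hH, blocks_deg_inr, hD1]
        exact hr1

end Pool.Agent.H21.EW
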