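import Mathlib

/-!
Even wheels, part 1: closed paths given as lists, greedy connection lemmas.
-/

namespace Pool.Agent.H21.EW

open Finset

/-- a wheel with `2k` spokes -/
def HasWheel {V : Type*} (G : SimpleGraph V) (k : ℕ) : Prop :=
  ∃ (h : V) (c : ZMod (2 * k) → V), Function.Injective c ∧
    (∀ i, G.Adj h (c i)) ∧ ∀ i, G.Adj (c i) (c (i + 1))

variable {V : Type*} [Fintype V] [DecidableEq V]

/-- a cycle of length `m` (as a list) inside the set `S` -/
def ClosedIn (G : SimpleGraph V) (S : Finset V) (m : ℕ) : Prop :=
  ∃ L : List V, L.Nodup ∧ L.length = m ∧ (∀ x ∈ L, x ∈ S) ∧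
    ∃ y, L.head? = some y ∧ List.IsChain G.Adj (L ++ [y])

theorem hasWheel_of_closedIn {G : SimpleGraph V} [DecidableRel G.Adj] {v : V} {k : ℕ}
    (hk : 1 ≤ k) (h : ClosedIn G (G.neighborFinset v) (2 * k)) : HasWheel G k := by
  obtain ⟨L, hnd, hlen, hin, y, hy, hch⟩ := h
  have : NeZero (2 * k) := ⟨by omega⟩
  have hlt : ∀ i : ZMod (2 * k), i.val < L.length := fun i => by rw [hlen]; exact i.val_lt
  refine ⟨v, fun i => L[i.val]'(hlt i), ?_, ?_, ?_⟩
  · intro i j hij
    have := (List.Nodup.getElem_inj_iff hnd).1 hij
    exact ZMod.val_injective _ this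
  · intro i
    have := hin _ (List.getElem_mem (hlt i))
    simpa using this
  · intro i
    rw [List.isChain_iff_getElem] at hch
    have h1 : i.val + 1 < (L ++ [y]).length := by
      simp only [List.length_append, List.length_singleton]
      have := hlt i
      omega
    have h2 := hch i.val h1
    have e1 : (L ++ [y])[i.val]'(by omega) = L[i.val]'(hlt i) := by
      rw [List.getElem_append_left]
    rw [e1] at h2
    by_cases hc : i.val + 1 < 2 * k
    · have hv : (i + 1).val = i.val + 1 := by
        rw [ZMod.val_add, ZMod.val_one'' (by omega)]
        exact Nat.mod_eq_of_lt hc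
      have e2 : (L ++ [y])[i.val + 1]'h1 = L[(i + 1).val]'(hlt (i + 1)) := by
        rw [List.getElem_append_left (by omega)]
        simp only [hv]
      rw [e2] at h2
      exact h2
    · have hv0 : i.val + 1 = 2 * k := by
        have := i.val_lt
        omega
      have hv : (i + 1).val = 0 := by
        rw [ZMod.val_add, ZMod.val_one'' (by omega), hv0, Nat.mod_self]
      have e2 : (L ++ [y])[i.val + 1]'h1 = L[(i + 1).val]'(hlt (i + 1)) := by
        rw [List.getElem_append_right (by omega)]
        simp only [hv]
        have : L[0]'(by omega) = y := by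
          have := List.head?_eq_getElem? (l := L)
          rw [hy] at this
          rw [List.getElem?_eq_getElem (by omega)] at this
          exact (Option.some.inj this).symm
        rw [this]
        simp
      rw [e2] at h2
      exact h2

/-- greedy single connectors -/
theorem triv (G : SimpleGraph V) [DecidableRel G.Adj] (P : Finset V) (M : ℕ) (y0 : V) :
    ∀ (ys : List V) (F : Finset V), ys.Nodup → (∀ x ∈ ys, x ∈ F) → F.card + ys.length ≤ M →
      List.IsChain (fun y y' => M ≤ (P ∩ G.neighborFinset y ∩ G.neighborFinset y').card)
        (ys ++ [y0]) →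
      ∃ L : List V, L.Nodup ∧ L.length = 2 * ys.length ∧
        (∀ x ∈ L, x ∈ ys ∨ (x ∈ P ∧ x ∉ F)) ∧ (L ++ [y0]).head? = (ys ++ [y0]).head? ∧
        List.IsChain G.Adj (L ++ [y0]) := by
  intro ys
  induction ys with
  | nil =>
    intro F _ _ _ _
    exact ⟨[], List.nodup_nil, rfl, by simp, rfl, by simp⟩
  | cons y ys ih =>
    intro F hnd hF hM hch
    obtain ⟨y', hy'⟩ : ∃ y', (ys ++ [y0]).head? = some y' := by
      cases ys with
      | nil => exact ⟨y0, rfl⟩
      | cons a l => exact ⟨a, rfl⟩
    rw [List.cons_append, List.isChain_cons] at hch
    obtain ⟨h1, h2⟩ := hch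
    have h3 := h1 y' (by rw [hy']; rfl)
    simp only [List.length_cons] at hM
    obtain ⟨z, hz⟩ : ((P ∩ G.neighborFinset y ∩ G.neighborFinset y') \ F).Nonempty := by
      rw [← Finset.card_pos]
      have := Finset.le_card_sdiff F (P ∩ G.neighborFinset y ∩ G.neighborFinset y')
      omega
    simp only [mem_sdiff, mem_inter, SimpleGraph.mem_neighborFinset] at hz
    obtain ⟨⟨⟨hzP, hzy⟩, hzy'⟩, hzF⟩ := hz
    rw [List.nodup_cons] at hnd
    obtain ⟨L, k1, k2, k3, k4, k5⟩ := ih (insert z F) hnd.2
      (fun x hx => mem_insert_of_mem (hF x (List.mem_cons_of_mem _ hx)))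
      (by rw [Finset.card_insert_of_notMem hzF]; omega) h2
    have hyF : y ∈ F := hF y (List.mem_cons_self)
    refine ⟨y :: z :: L, ?_, ?_, ?_, ?_, ?_⟩
    · rw [List.nodup_cons, List.nodup_cons]
      refine ⟨?_, ?_, k1⟩
      · intro hmem
        rcases List.mem_cons.1 hmem with rfl | hmem
        · exact hzF hyF
        · rcases k3 y hmem with h | h
          · exact hnd.1 h
          · exact h.2 (mem_insert_of_mem hyF)
      · intro hmem
        rcases k3 z hmem with h | h
        · exact hzF (hF z (List.mem_cons_of_mem _ h))
        · exact h.2 (mem_insert_self _ _)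
    · simp only [List.length_cons, k2]; ring
    · intro x hx
      rcases List.mem_cons.1 hx with rfl | hx
      · exact Or.inl (List.mem_cons_self)
      · rcases List.mem_cons.1 hx with rfl | hx
        · exact Or.inr ⟨hzP, hzF⟩
        · rcases k3 x hx with h | h
          · exact Or.inl (List.mem_cons_of_mem _ h)
          · exact Or.inr ⟨h.1, fun h' => h.2 (mem_insert_of_mem h')⟩
    · simp
    · simp only [List.cons_append]
      rw [List.isChain_cons]
      refine ⟨?_, ?_⟩
      · intro w hw
        simp only [List.head?_cons, Option.mem_def, Option.some.injEq] at hw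
        subst hw
        exact hzy
      · rw [List.isChain_cons]
        refine ⟨?_, k5⟩
        intro w hw
        rw [k4, hy'] at hw
        simp only [Option.mem_def, Option.some.injEq] at hw
        subst hw
        exact hzy'.symm

/-- a segment with `e` edges inside `P` -/
def Seg (G : SimpleGraph V) (P : Finset V) (e : ℕ) (s : List V) : Prop :=
  s.Nodup ∧ s.length = e + 1 ∧ (∀ x ∈ s, x ∈ P) ∧ List.IsChain G.Adj s

/-- greedy nontrivial segments, then single connectors -/
theorem segs (G : SimpleGraph V) [DecidableRel G.Adj] (P : Finset V) (e m : ℕ) (y0 : V)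
    (hy0 : (P \ G.neighborFinset y0).card ≤ m) :
    ∀ (r : ℕ) (ys : List V) (F : Finset V) (S : Finset (List V)), r ≤ ys.length → ys.Nodup →
      (∀ x ∈ ys, x ∈ F) → (∀ x ∈ ys, (P \ G.neighborFinset x).card ≤ m) →
      (∀ s ∈ S, Seg G P e s) → (∀ s ∈ S, ∀ x ∈ s, x ∉ F) →
      (∀ s ∈ S, ∀ s' ∈ S, s ≠ s' → List.Disjoint s s') → 2 * m + r ≤ S.card →
      2 * m + F.card + ys.length + r * (e + 1) ≤ P.card →
      ∃ L : List V, L.Nodup ∧ L.length = 2 * ys.length + r * e ∧
        (∀ x ∈ L, x ∈ ys ∨ (x ∈ P ∧ x ∉ F)) ∧ (L ++ [y0]).head? = (ys ++ [y0]).head? ∧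
        List.IsChain G.Adj (L ++ [y0]) := by
  intro r
  induction r with
  | zero =>
    intro ys F S _ hnd hF hm hS hSF hSd hSc hP
    obtain ⟨L, h1, h2, h3, h4, h5⟩ := triv G P (P.card - 2 * m) y0 ys F hnd hF
      (by simp only [zero_mul, add_zero] at hP; omega) (by
        have key : ∀ y y' : V, (P \ G.neighborFinset y).card ≤ m →
            (P \ G.neighborFinset y').card ≤ m →
            P.card - 2 * m ≤ (P ∩ G.neighborFinset y ∩ G.neighborFinset y').card := by
          intro y y' hy hy'
          have hsub : P ⊆ (P ∩ G.neighborFinset y ∩ G.neighborFinset y') ∪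
              (P \ G.neighborFinset y) ∪ (P \ G.neighborFinset y') := by
            intro x hx
            simp only [mem_union, mem_inter, mem_sdiff]
            tauto
          have := Finset.card_le_card hsub
          have h1 := Finset.card_union_le ((P ∩ G.neighborFinset y ∩ G.neighborFinset y') ∪
              (P \ G.neighborFinset y)) (P \ G.neighborFinset y')
          have h2 := Finset.card_union_le (P ∩ G.neighborFinset y ∩ G.neighborFinset y')
              (P \ G.neighborFinset y)
          omega
        rw [List.isChain_iff_getElem]
        intro i hi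
        have hall : ∀ x ∈ ys ++ [y0], (P \ G.neighborFinset x).card ≤ m := by
          intro x hx
          rw [List.mem_append] at hx
          rcases hx with hx | hx
          · exact hm x hx
          · simp only [List.mem_singleton] at hx
            subst hx
            exact hy0
        exact key _ _ (hall _ (List.getElem_mem _)) (hall _ (List.getElem_mem _)))
    exact ⟨L, h1, by simpa using h2, h3, h4, h5⟩
  | succ r ih =>
    intro ys F S hr hnd hF hm hS hSF hSd hSc hP
    cases ys with
    | nil => simp at hr
    | cons y ys =>
      obtain ⟨y', hy'⟩ : ∃ y', (ys ++ [y0]).head? = some y' := by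
        cases ys with
        | nil => exact ⟨y0, rfl⟩
        | cons a l => exact ⟨a, rfl⟩
      have hy'm : (P \ G.neighborFinset y').card ≤ m := by
        have hmem : y' ∈ ys ++ [y0] := List.mem_of_mem_head? hy'
        rw [List.mem_append] at hmem
        rcases hmem with hx | hx
        · exact hm y' (List.mem_cons_of_mem _ hx)
        · simp only [List.mem_singleton] at hx
          subst hx
          exact hy0
      -- choose a good segment
      have hex : ∃ s ∈ S, (∀ p ∈ s.head?, G.Adj y p) ∧ (∀ q ∈ s.getLast?, G.Adj q y') := by
        by_contra hcon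
        push Not at hcon
        set S1 := S.filter (fun s => ∃ p ∈ s.head?, ¬ G.Adj y p) with hS1
        set S2 := S.filter (fun s => ∃ p ∈ s.getLast?, ¬ G.Adj y' p) with hS2
        have hcov : S ⊆ S1 ∪ S2 := by
          intro s hs
          simp only [hS1, hS2, mem_union, mem_filter]
          by_cases hA : ∀ p ∈ s.head?, G.Adj y p
          · obtain ⟨q, hq, hq2⟩ := hcon s hs hA
            exact Or.inr ⟨hs, q, hq, fun h => hq2 h.symm⟩
          · push Not at hA
            obtain ⟨p, hp, hp2⟩ := hA
            exact Or.inl ⟨hs, p, hp, hp2⟩
        have hne : ∀ s ∈ S, s ≠ [] := by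
          intro s hs h
          have := (hS s hs).2.1
          rw [h] at this
          simp at this
        have hc1 : S1.card ≤ m := by
          refine le_trans ?_ (hm y (List.mem_cons_self))
          refine Finset.card_le_card_of_injOn (fun s => s.headD y) ?_ ?_
          · intro s hs
            simp only [hS1, coe_filter, Set.mem_ofPred_eq] at hs
            obtain ⟨hs, p, hp, hp2⟩ := hs
            simp only [Option.mem_def] at hp
            have : s.headD y = p := by
              rw [List.headD_eq_head?_getD, hp]; rfl
            simp only [this, coe_sdiff, Set.mem_sdiff, mem_coe, SimpleGraph.mem_neighborFinset]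
            exact ⟨(hS s hs).2.2.1 p (List.mem_of_mem_head? hp), hp2⟩
          · intro s hs s' hs' hss
            simp only [hS1, coe_filter, Set.mem_ofPred_eq] at hs hs'
            obtain ⟨hs, p, hp, hp2⟩ := hs
            obtain ⟨hs', p', hp', hp2'⟩ := hs'
            by_contra hne'
            have e1 : s.headD y = p := by
              rw [List.headD_eq_head?_getD, Option.mem_def.1 hp]; rfl
            have e2 : s'.headD y = p' := by
              rw [List.headD_eq_head?_getD, Option.mem_def.1 hp']; rfl
            simp only [e1, e2] at hss
            subst hss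
            exact hSd s hs s' hs' hne' (List.mem_of_mem_head? hp) (List.mem_of_mem_head? hp')
        have hc2 : S2.card ≤ m := by
          refine le_trans ?_ hy'm
          refine Finset.card_le_card_of_injOn (fun s => s.getLastD y) ?_ ?_
          · intro s hs
            simp only [hS2, coe_filter, Set.mem_ofPred_eq] at hs
            obtain ⟨hs, p, hp, hp2⟩ := hs
            have : s.getLastD y = p := by
              rw [List.getLastD_eq_getLast?, Option.mem_def.1 hp]; rfl
            simp only [this, coe_sdiff, Set.mem_sdiff, mem_coe, SimpleGraph.mem_neighborFinset]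
            exact ⟨(hS s hs).2.2.1 p (List.mem_of_mem_getLast? hp), hp2⟩
          · intro s hs s' hs' hss
            simp only [hS2, coe_filter, Set.mem_ofPred_eq] at hs hs'
            obtain ⟨hs, p, hp, hp2⟩ := hs
            obtain ⟨hs', p', hp', hp2'⟩ := hs'
            by_contra hne'
            have e1 : s.getLastD y = p := by
              rw [List.getLastD_eq_getLast?, Option.mem_def.1 hp]; rfl
            have e2 : s'.getLastD y = p' := by
              rw [List.getLastD_eq_getLast?, Option.mem_def.1 hp']; rfl
            simp only [e1, e2] at hss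
            subst hss
            exact hSd s hs s' hs' hne' (List.mem_of_mem_getLast? hp) (List.mem_of_mem_getLast? hp')
        have := Finset.card_le_card hcov
        have := Finset.card_union_le S1 S2
        omega
      obtain ⟨s, hs, hs1, hs2⟩ := hex
      obtain ⟨sn, sl, sP, sc⟩ := hS s hs
      rw [List.nodup_cons] at hnd
      have hsF : ∀ x ∈ s, x ∉ F := hSF s hs
      have hFs : Disjoint F s.toFinset := by
        rw [Finset.disjoint_left]
        intro x hx hx'
        exact hsF x (List.mem_toFinset.1 hx') hx
      have hcF : (F ∪ s.toFinset).card = F.card + (e + 1) := by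
        rw [Finset.card_union_of_disjoint hFs, List.toFinset_card_of_nodup sn, sl]
      simp only [List.length_cons] at hr hP
      obtain ⟨L, k1, k2, k3, k4, k5⟩ := ih ys (F ∪ s.toFinset) (S.erase s) (by omega) hnd.2
        (fun x hx => mem_union_left _ (hF x (List.mem_cons_of_mem _ hx)))
        (fun x hx => hm x (List.mem_cons_of_mem _ hx))
        (fun s' hs' => hS s' (Finset.mem_of_mem_erase hs'))
        (fun s' hs' x hx => by
          rw [Finset.mem_union, not_or]
          refine ⟨hSF s' (Finset.mem_of_mem_erase hs') x hx, ?_⟩
          intro hx'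
          exact hSd s' (Finset.mem_of_mem_erase hs') s hs (Finset.ne_of_mem_erase hs') hx
            (List.mem_toFinset.1 hx'))
        (fun s' hs' s'' hs'' hne => hSd s' (Finset.mem_of_mem_erase hs') s''
          (Finset.mem_of_mem_erase hs'') hne)
        (by rw [Finset.card_erase_of_mem hs]; omega)
        (by
          rw [hcF]
          have : (r + 1) * (e + 1) = r * (e + 1) + (e + 1) := by ring
          omega)
      have hyF : y ∈ F := hF y (List.mem_cons_self)
      have hsne : s ≠ [] := by
        intro h
        rw [h] at sl
        simp at sl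
      refine ⟨y :: (s ++ L), ?_, ?_, ?_, ?_, ?_⟩
      · rw [List.nodup_cons, List.nodup_append]
        refine ⟨?_, sn, k1, ?_⟩
        · intro hmem
          rcases List.mem_append.1 hmem with h | h
          · exact hsF y h hyF
          · rcases k3 y h with h | h
            · exact hnd.1 h
            · exact h.2 (mem_union_left _ hyF)
        · intro a ha b hb hab
          subst hab
          rcases k3 a hb with h | h
          · exact hsF a ha (hF a (List.mem_cons_of_mem _ h))
          · exact h.2 (mem_union_right _ (List.mem_toFinset.2 ha))
      · simp only [List.length_cons, List.length_append, k2, sl]; ring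
      · intro x hx
        rcases List.mem_cons.1 hx with rfl | hx
        · exact Or.inl (List.mem_cons_self)
        · rcases List.mem_append.1 hx with hx | hx
          · exact Or.inr ⟨sP x hx, hsF x hx⟩
          · rcases k3 x hx with h | h
            · exact Or.inl (List.mem_cons_of_mem _ h)
            · exact Or.inr ⟨h.1, fun h' => h.2 (mem_union_left _ h')⟩
      · simp
      · rw [List.cons_append, List.append_assoc, List.isChain_cons, List.isChain_append]
        refine ⟨?_, sc, k5, ?_⟩
        · intro w hw
          have : (s ++ (L ++ [y0])).head? = s.head? := by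
            cases s with
            | nil => exact absurd rfl hsne
            | cons a l => rfl
          rw [this] at hw
          exact hs1 w hw
        · intro a ha b hb
          rw [k4, hy'] at hb
          simp only [Option.mem_def, Option.some.injEq] at hb
          subst hb
          exact hs2 a ha

end Pool.Agent.H21.EW
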