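import Pool.Agent.H21.EW.Dense

/-!
Even wheels, part 4: if all neighbourhoods are sparse then the graph is almost bipartite.
-/

namespace Pool.Agent.H21.EW

open Finset

variable {V : Type*} [Fintype V] [DecidableEq V]

theorem structure_lemma (G : SimpleGraph V) [DecidableRel G.Adj] (n : ℕ)
    (hn : Fintype.card V = n) (h0 : 1000 ≤ n)
    (hδ : ∀ v, n ≤ 2 * (G.neighborFinset v).card)
    (hs : ∀ v, 500 * ∑ u ∈ G.neighborFinset v,
      (G.neighborFinset u ∩ G.neighborFinset v).card < n ^ 2) :
    ∃ A : Finset V, A.Nonempty ∧ Aᶜ.Nonempty ∧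
      (∀ u ∈ A, 30 * (G.neighborFinset u ∩ A).card ≤ n) ∧
      (∀ u ∈ Aᶜ, 30 * (G.neighborFinset u ∩ Aᶜ).card ≤ n) := by
  have hn0 : 0 < n := by omega
  set N := fun v => G.neighborFinset v with hN
  have hcardpos : 0 < Fintype.card V := by omega
  obtain ⟨v0⟩ := Fintype.card_pos_iff.1 hcardpos
  set X := N v0 with hX
  set B0 := Xᶜ with hB0
  have hxb : X.card + B0.card = n := by
    rw [hB0, Finset.card_add_card_compl, hn]
  have hx2 : n ≤ 2 * X.card := hδ v0
  have hb2 : 2 * B0.card ≤ n := by omega
  have hsplit : ∀ (Y : Finset V) (u : V), (N u ∩ Y).card + (N u ∩ Yᶜ).card = (N u).card := by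
    intro Y u
    rw [← Finset.card_union_of_disjoint]
    · congr 1
      ext z
      simp only [mem_union, mem_inter, mem_compl]
      tauto
    · rw [Finset.disjoint_left]
      intro z hz hz'
      simp only [mem_inter, mem_compl] at hz hz'
      exact hz'.2 hz.2
  have hsd : ∀ (Y Z : Finset V), (Y \ Z).card + (Z ∩ Y).card = Y.card := by
    intro Y Z
    rw [Finset.inter_comm, Finset.card_sdiff_add_card_inter]
  have hmiss : ∀ y, (B0 \ N y).card ≤ (N y ∩ X).card := by
    intro y
    have h1 := hsd B0 (N y)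
    have h2 := hsplit X y
    have h3 := hδ y
    rw [← hB0] at h2
    change n ≤ 2 * (N y).card at h3
    omega
  set s1 := ∑ y ∈ X, (N y ∩ X).card with hs1
  have hs1lt : 500 * s1 < n ^ 2 := hs v0
  have hμ : ∑ y ∈ X, (B0 \ N y).card ≤ s1 := Finset.sum_le_sum (fun y _ => hmiss y)
  -- size of B0
  have hBbig : 125 * (n - 2 * B0.card) < n := by
    have h1 : X.card * (n - 2 * B0.card) ≤ 2 * s1 := by
      rw [hs1, Finset.mul_sum, ← smul_eq_mul, ← Finset.sum_const]
      apply Finset.sum_le_sum
      intro y _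
      have h2 := hsplit X y
      have h3 := hδ y
      change n ≤ 2 * (N y).card at h3
      have h4 : (N y ∩ B0).card ≤ B0.card := Finset.card_le_card Finset.inter_subset_right
      rw [← hB0] at h2
      omega
    have h2 : n * (n - 2 * B0.card) ≤ 4 * s1 := by
      calc n * (n - 2 * B0.card) ≤ (2 * X.card) * (n - 2 * B0.card) :=
            Nat.mul_le_mul_right _ hx2
        _ = 2 * (X.card * (n - 2 * B0.card)) := by ring
        _ ≤ 2 * (2 * s1) := Nat.mul_le_mul_left _ h1
        _ = 4 * s1 := by ring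
    have h3 : n * (125 * (n - 2 * B0.card)) < n * n := by
      calc n * (125 * (n - 2 * B0.card)) = 125 * (n * (n - 2 * B0.card)) := by ring
        _ ≤ 125 * (4 * s1) := Nat.mul_le_mul_left _ h2
        _ = 500 * s1 := by ring
        _ < n ^ 2 := hs1lt
        _ = n * n := by ring
    exact Nat.lt_of_mul_lt_mul_left h3
  -- a vertex of X with few neighbours in X
  obtain ⟨y0, hy0X, hy0⟩ : ∃ y0 ∈ X, 250 * (N y0 ∩ X).card < n := by
    by_contra hcon
    push Not at hcon
    have h1 : X.card * n ≤ 250 * s1 := by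
      rw [hs1, Finset.mul_sum, ← smul_eq_mul, ← Finset.sum_const]
      exact Finset.sum_le_sum hcon
    have h2 : n ^ 2 ≤ 500 * s1 := by
      calc n ^ 2 = n * n := by ring
        _ ≤ (2 * X.card) * n := Nat.mul_le_mul_right _ hx2
        _ = 2 * (X.card * n) := by ring
        _ ≤ 2 * (250 * s1) := Nat.mul_le_mul_left _ h1
        _ = 500 * s1 := by ring
    omega
  set c := (B0 \ N y0).card with hc
  have hc250 : 250 * c < n := by
    have := hmiss y0
    omega
  set s2 := ∑ z ∈ B0, (N z ∩ B0).card with hs2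
  have hs2lt : 500 * s2 < 3 * n ^ 2 := by
    have h1 : s2 ≤ ∑ z ∈ N y0, (N z ∩ N y0).card + 2 * (B0.card * c) := by
      have e1 : s2 = ∑ z ∈ B0 \ N y0, (N z ∩ B0).card + ∑ z ∈ B0 ∩ N y0, (N z ∩ B0).card := by
        rw [hs2, ← Finset.sum_union]
        · congr 1
          ext z
          simp only [mem_union, mem_sdiff, mem_inter]
          tauto
        · rw [Finset.disjoint_left]
          intro z hz hz'
          simp only [mem_sdiff, mem_inter] at hz hz'
          exact hz.2 hz'.2
      have e2 : ∑ z ∈ B0 \ N y0, (N z ∩ B0).card ≤ c * B0.card := by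
        rw [hc, ← smul_eq_mul, ← Finset.sum_const]
        apply Finset.sum_le_sum
        intro z _
        exact Finset.card_le_card Finset.inter_subset_right
      have e3 : ∑ z ∈ B0 ∩ N y0, (N z ∩ B0).card ≤
          ∑ z ∈ B0 ∩ N y0, ((N z ∩ N y0).card + c) := by
        apply Finset.sum_le_sum
        intro z _
        have hsub : N z ∩ B0 ⊆ (N z ∩ N y0) ∪ (B0 \ N y0) := by
          intro w hw
          simp only [mem_union, mem_inter, mem_sdiff] at hw ⊢
          tauto
        have := Finset.card_le_card hsub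
        have := Finset.card_union_le (N z ∩ N y0) (B0 \ N y0)
        omega
      rw [Finset.sum_add_distrib, Finset.sum_const, smul_eq_mul] at e3
      have e4 : ∑ z ∈ B0 ∩ N y0, (N z ∩ N y0).card ≤ ∑ z ∈ N y0, (N z ∩ N y0).card :=
        Finset.sum_le_sum_of_subset Finset.inter_subset_right
      have e5 : (B0 ∩ N y0).card * c ≤ B0.card * c :=
        Nat.mul_le_mul_right _ (Finset.card_le_card Finset.inter_subset_left)
      have e6 : c * B0.card = B0.card * c := Nat.mul_comm _ _
      omega
    have h2 : 500 * ∑ z ∈ N y0, (N z ∩ N y0).card < n ^ 2 := hs y0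
    have h3 : 2 * (B0.card * c) ≤ n * c := by
      calc 2 * (B0.card * c) = (2 * B0.card) * c := by ring
        _ ≤ n * c := Nat.mul_le_mul_right _ hb2
    have h4 : 500 * (n * c) ≤ 2 * n ^ 2 := by
      calc 500 * (n * c) = 2 * n * (250 * c) := by ring
        _ ≤ 2 * n * n := Nat.mul_le_mul_left _ hc250.le
        _ = 2 * n ^ 2 := by ring
    omega
  -- dichotomy
  have hdich : ∀ u, 50 * (N u ∩ X).card < n ∨ 50 * (N u ∩ B0).card < n := by
    intro u
    by_contra hcon
    push Not at hcon
    obtain ⟨hp, hq⟩ := hcon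
    set p := (N u ∩ X).card with hpdef
    set q := (N u ∩ B0).card with hqdef
    have h1 : p * q ≤ ∑ y ∈ N u, (N y ∩ N u).card + s1 := by
      have e1 : p * q ≤ ∑ y ∈ N u ∩ X, ((N y ∩ N u).card + (B0 \ N y).card) := by
        rw [hpdef, ← smul_eq_mul, ← Finset.sum_const]
        apply Finset.sum_le_sum
        intro y _
        have hsub : N u ∩ B0 ⊆ (N y ∩ N u) ∪ (B0 \ N y) := by
          intro w hw
          simp only [mem_union, mem_inter, mem_sdiff] at hw ⊢
          tauto
        have := Finset.card_le_card hsub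
        have := Finset.card_union_le (N y ∩ N u) (B0 \ N y)
        omega
      rw [Finset.sum_add_distrib] at e1
      have e2 : ∑ y ∈ N u ∩ X, (N y ∩ N u).card ≤ ∑ y ∈ N u, (N y ∩ N u).card :=
        Finset.sum_le_sum_of_subset Finset.inter_subset_left
      have e3 : ∑ y ∈ N u ∩ X, (B0 \ N y).card ≤ ∑ y ∈ X, (B0 \ N y).card :=
        Finset.sum_le_sum_of_subset Finset.inter_subset_right
      omega
    have h2 : 500 * ∑ y ∈ N u, (N y ∩ N u).card < n ^ 2 := hs u
    have h3 : 250 * (p * q) < n ^ 2 := by omega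
    have h4 := hsplit X u
    rw [← hB0] at h4
    have h5 : n ≤ 2 * (N u).card := hδ u
    have h6 : n ≤ 4 * p ∨ n ≤ 4 * q := by omega
    rcases h6 with h6 | h6
    · have : n * n ≤ (4 * p) * (50 * q) := Nat.mul_le_mul h6 hq
      have e : (4 * p) * (50 * q) = 200 * (p * q) := by ring
      have e2 : n ^ 2 = n * n := by ring
      omega
    · have : n * n ≤ (50 * p) * (4 * q) := Nat.mul_le_mul hp h6
      have e : (50 * p) * (4 * q) = 200 * (p * q) := by ring
      have e2 : n ^ 2 = n * n := by ring
      omega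
  set A : Finset V := univ.filter (fun u => 50 * (N u ∩ X).card < n) with hA
  have hmemA : ∀ u, u ∈ A ↔ 50 * (N u ∩ X).card < n := by
    intro u; simp [hA]
  set α := (X \ A).card with hα
  set β := (B0 ∩ A).card with hβ
  have hα240 : 240 * α < n := by
    have h1 : α * (48 * n) ≤ 100 * s1 := by
      have e1 : α * (48 * n) ≤ ∑ u ∈ X \ A, 100 * (N u ∩ X).card := by
        rw [hα, ← smul_eq_mul, ← Finset.sum_const]
        apply Finset.sum_le_sum
        intro u hu
        rw [mem_sdiff, hmemA] at hu
        have h2 := hdich u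
        have h4 := hsplit X u
        rw [← hB0] at h4
        have h5 : n ≤ 2 * (N u).card := hδ u
        omega
      rw [← Finset.mul_sum] at e1
      refine le_trans e1 (Nat.mul_le_mul_left _ ?_)
      exact Finset.sum_le_sum_of_subset Finset.sdiff_subset
    have h2 : n * (240 * α) < n * n := by
      calc n * (240 * α) = 5 * (α * (48 * n)) := by ring
        _ ≤ 5 * (100 * s1) := Nat.mul_le_mul_left _ h1
        _ = 500 * s1 := by ring
        _ < n ^ 2 := hs1lt
        _ = n * n := by ring
    exact Nat.lt_of_mul_lt_mul_left h2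
  have hβ80 : 80 * β < n := by
    have h1 : β * (48 * n) ≤ 100 * s2 := by
      have e1 : β * (48 * n) ≤ ∑ u ∈ B0 ∩ A, 100 * (N u ∩ B0).card := by
        rw [hβ, ← smul_eq_mul, ← Finset.sum_const]
        apply Finset.sum_le_sum
        intro u hu
        rw [mem_inter, hmemA] at hu
        have h4 := hsplit X u
        rw [← hB0] at h4
        have h5 : n ≤ 2 * (N u).card := hδ u
        omega
      rw [← Finset.mul_sum] at e1
      refine le_trans e1 (Nat.mul_le_mul_left _ ?_)
      exact Finset.sum_le_sum_of_subset Finset.inter_subset_left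
    have h2 : (3 * n) * (80 * β) < (3 * n) * n := by
      calc (3 * n) * (80 * β) = 5 * (β * (48 * n)) := by ring
        _ ≤ 5 * (100 * s2) := Nat.mul_le_mul_left _ h1
        _ = 500 * s2 := by ring
        _ < 3 * n ^ 2 := hs2lt
        _ = (3 * n) * n := by ring
    exact Nat.lt_of_mul_lt_mul_left h2
  refine ⟨A, ?_, ?_, ?_, ?_⟩
  · rw [← Finset.card_pos]
    have h1 : (X \ A).card + (A ∩ X).card = X.card := hsd X A
    have h2 : (A ∩ X).card ≤ A.card := Finset.card_le_card Finset.inter_subset_left
    omega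
  · rw [← Finset.card_pos]
    have h1 : (B0 \ A).card + (A ∩ B0).card = B0.card := hsd B0 A
    have h2 : (B0 \ A).card ≤ Aᶜ.card := by
      apply Finset.card_le_card
      intro z hz
      rw [mem_sdiff] at hz
      rw [mem_compl]
      exact hz.2
    rw [Finset.inter_comm] at h1
    omega
  · intro u hu
    rw [hmemA] at hu
    have hsub : N u ∩ A ⊆ (N u ∩ X) ∪ (B0 ∩ A) := by
      intro w hw
      simp only [hB0, mem_union, mem_inter, mem_compl] at hw ⊢
      tauto
    have h1 := Finset.card_le_card hsub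
    have h2 := Finset.card_union_le (N u ∩ X) (B0 ∩ A)
    change 30 * (N u ∩ A).card ≤ n
    omega
  · intro u hu
    rw [mem_compl, hmemA] at hu
    have h3 := hdich u
    have hsub : N u ∩ Aᶜ ⊆ (N u ∩ B0) ∪ (X \ A) := by
      intro w hw
      simp only [hB0, mem_union, mem_inter, mem_compl, mem_sdiff] at hw ⊢
      tauto
    have h1 := Finset.card_le_card hsub
    have h2 := Finset.card_union_le (N u ∩ B0) (X \ A)
    change 30 * (N u ∩ Aᶜ).card ≤ n
    omega

end Pool.Agent.H21.EW
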