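import Pool.Agent.H21.EW.Paths

/-!
Even wheels, part 2: double counting; a supply of disjoint short paths.
-/

namespace Pool.Agent.H21.EW

open Finset

variable {V : Type*} [Fintype V] [DecidableEq V]

theorem dcount (G : SimpleGraph V) [DecidableRel G.Adj] (X Y : Finset V) :
    ∑ x ∈ X, (G.neighborFinset x ∩ Y).card = ∑ y ∈ Y, (G.neighborFinset y ∩ X).card := by
  have h : ∀ (Z : Finset V) (x : V),
      (G.neighborFinset x ∩ Z).card = ∑ z ∈ Z, if G.Adj x z then 1 else 0 := by
    intro Z x
    rw [Finset.card_eq_sum_ones, ← Finset.sum_filter]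
    apply Finset.sum_congr _ (fun _ _ => rfl)
    ext z
    simp only [mem_inter, SimpleGraph.mem_neighborFinset, mem_filter]
    tauto
  simp only [h]
  rw [Finset.sum_comm]
  apply Finset.sum_congr rfl
  intro y _
  apply Finset.sum_congr rfl
  intro x _
  simp only [G.adj_comm x y]

theorem supply (G : SimpleGraph V) [DecidableRel G.Adj] (P : Finset V) (e : ℕ)
    (he : e = 1 ∨ e = 2) : ∀ M : ℕ,
    (∀ R : Finset V, R.card ≤ (e + 1) * M →
      ∃ x ∈ P \ R, e ≤ ((P \ R) ∩ G.neighborFinset x).card) →
    ∃ S : Finset (List V), S.card = M ∧ (∀ s ∈ S, Seg G P e s) ∧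
      (∀ s ∈ S, ∀ s' ∈ S, s ≠ s' → List.Disjoint s s') := by
  intro M
  induction M with
  | zero =>
    intro _
    exact ⟨∅, by simp, by simp, by simp⟩
  | succ M ih =>
    intro h
    obtain ⟨S, hS1, hS2, hS3⟩ := ih (fun R hR => h R (le_trans hR (by
      apply Nat.mul_le_mul_left; omega)))
    set R : Finset V := S.biUnion (fun s => s.toFinset) with hRdef
    have hRc : R.card ≤ (e + 1) * (M + 1) := by
      have h1 : R.card ≤ ∑ s ∈ S, s.toFinset.card := Finset.card_biUnion_le
      have h2 : ∑ s ∈ S, s.toFinset.card ≤ ∑ s ∈ S, (e + 1) := by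
        apply Finset.sum_le_sum
        intro s hs
        have := List.toFinset_card_le s
        rw [(hS2 s hs).2.1] at this
        exact this
      rw [Finset.sum_const, smul_eq_mul, hS1] at h2
      have : M * (e + 1) ≤ (e + 1) * (M + 1) := by
        rw [mul_comm]; apply Nat.mul_le_mul_left; omega
      omega
    obtain ⟨x, hx, hxe⟩ := h R hRc
    rw [mem_sdiff] at hx
    -- build the segment
    have hseg : ∃ s : List V, Seg G P e s ∧ ∀ z ∈ s, z ∉ R := by
      rcases he with rfl | rfl
      · obtain ⟨y, hy⟩ := Finset.card_pos.1 hxe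
        simp only [mem_inter, mem_sdiff, SimpleGraph.mem_neighborFinset] at hy
        refine ⟨[x, y], ⟨?_, rfl, ?_, ?_⟩, ?_⟩
        · simp only [List.nodup_cons, List.mem_cons, List.not_mem_nil, or_false, not_false_iff,
            List.nodup_nil, and_true]
          exact hy.2.ne
        · intro z hz
          simp only [List.mem_cons, List.not_mem_nil, or_false] at hz
          rcases hz with rfl | rfl
          · exact hx.1
          · exact hy.1.1
        · simp only [List.isChain_cons_cons, List.isChain_singleton, and_true]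
          exact hy.2
        · intro z hz
          simp only [List.mem_cons, List.not_mem_nil, or_false] at hz
          rcases hz with rfl | rfl
          · exact hx.2
          · exact hy.1.2
      · obtain ⟨y, hy, z, hz, hyz⟩ := Finset.one_lt_card.1 hxe
        simp only [mem_inter, mem_sdiff, SimpleGraph.mem_neighborFinset] at hy hz
        refine ⟨[y, x, z], ⟨?_, rfl, ?_, ?_⟩, ?_⟩
        · simp only [List.nodup_cons, List.mem_cons, List.not_mem_nil, or_false, not_false_iff,
            List.nodup_nil, and_true, not_or]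
          exact ⟨⟨hy.2.ne', hyz⟩, hz.2.ne⟩
        · intro w hw
          simp only [List.mem_cons, List.not_mem_nil, or_false] at hw
          rcases hw with rfl | rfl | rfl
          · exact hy.1.1
          · exact hx.1
          · exact hz.1.1
        · simp only [List.isChain_cons_cons, List.isChain_singleton, and_true]
          exact ⟨hy.2.symm, hz.2⟩
        · intro w hw
          simp only [List.mem_cons, List.not_mem_nil, or_false] at hw
          rcases hw with rfl | rfl | rfl
          · exact hy.1.2
          · exact hx.2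
          · exact hz.1.2
    obtain ⟨s, hs, hsR⟩ := hseg
    have hdisj : ∀ s' ∈ S, List.Disjoint s s' := by
      intro s' hs' z hz hz'
      exact hsR z hz (Finset.mem_biUnion.2 ⟨s', hs', List.mem_toFinset.2 hz'⟩)
    have hsS : s ∉ S := by
      intro hmem
      have hne : s ≠ [] := by
        intro h
        have := hs.2.1
        rw [h] at this
        simp at this
      obtain ⟨z, hz⟩ := List.exists_mem_of_ne_nil s hne
      exact hdisj s hmem hz hz
    refine ⟨insert s S, by rw [Finset.card_insert_of_notMem hsS, hS1], ?_, ?_⟩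
    · intro s' hs'
      rcases Finset.mem_insert.1 hs' with rfl | h'
      · exact hs
      · exact hS2 s' h'
    · intro s1 h1 s2 h2 hne
      rcases Finset.mem_insert.1 h1 with rfl | h1'
      · rcases Finset.mem_insert.1 h2 with rfl | h2'
        · exact absurd rfl hne
        · exact hdisj s2 h2'
      · rcases Finset.mem_insert.1 h2 with rfl | h2'
        · exact (hdisj s1 h1').symm
        · exact hS3 s1 h1' s2 h2' hne

theorem supply_count (G : SimpleGraph V) [DecidableRel G.Adj] (P P' R : Finset V)
    (a e K R0 : ℕ) (hP' : P' ⊆ P) (hmin : ∀ x ∈ P, a ≤ (G.neighborFinset x ∩ P).card)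
    (hmax : ∀ x ∈ P, (G.neighborFinset x ∩ P).card ≤ K) (hea : e ≤ a)
    (hR : R.card + (P \ P').card ≤ R0)
    (hbig : R0 * K + R0 * (a + 1 - e) < P.card * (a + 1 - e)) :
    ∃ x ∈ P' \ R, e ≤ ((P' \ R) ∩ G.neighborFinset x).card := by
  by_contra hcon
  push Not at hcon
  set T := P \ (P' \ R) with hT
  have hTc : T.card ≤ R0 := by
    have hsub : T ⊆ (P \ P') ∪ R := by
      intro x hx
      simp only [hT, mem_sdiff, mem_union] at hx ⊢
      tauto
    have := Finset.card_le_card hsub
    have := Finset.card_union_le (P \ P') R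
    omega
  have hsubP : P' \ R ⊆ P := fun x hx => hP' (mem_sdiff.1 hx).1
  have hcard : P.card = T.card + (P' \ R).card := by
    rw [hT, Finset.card_sdiff_add_card_eq_card hsubP]
  have hlow : ∀ x ∈ P' \ R, a + 1 - e ≤ (G.neighborFinset x ∩ T).card := by
    intro x hx
    have h1 := hmin x (hsubP hx)
    have h2 := hcon x hx
    have h3 : G.neighborFinset x ∩ P ⊆ (G.neighborFinset x ∩ T) ∪
        ((P' \ R) ∩ G.neighborFinset x) := by
      intro y hy
      simp only [hT, mem_inter, mem_union, mem_sdiff] at hy ⊢
      tauto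
    have h4 := Finset.card_le_card h3
    have h5 := Finset.card_union_le (G.neighborFinset x ∩ T)
        ((P' \ R) ∩ G.neighborFinset x)
    omega
  have h1 : (P' \ R).card * (a + 1 - e) ≤ ∑ x ∈ P' \ R, (G.neighborFinset x ∩ T).card := by
    rw [← smul_eq_mul, ← Finset.sum_const]
    exact Finset.sum_le_sum hlow
  rw [dcount] at h1
  have h2 : ∑ y ∈ T, (G.neighborFinset y ∩ (P' \ R)).card ≤ T.card * K := by
    rw [← smul_eq_mul, ← Finset.sum_const]
    apply Finset.sum_le_sum
    intro y hy
    refine le_trans (Finset.card_le_card ?_) (hmax y (mem_sdiff.1 hy).1)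
    exact Finset.inter_subset_inter_left hsubP
  have h3 : T.card * K ≤ R0 * K := Nat.mul_le_mul_right _ hTc
  have h4 : P.card * (a + 1 - e) = T.card * (a + 1 - e) + (P' \ R).card * (a + 1 - e) := by
    rw [hcard]; ring
  have h5 : T.card * (a + 1 - e) ≤ R0 * (a + 1 - e) := Nat.mul_le_mul_right _ hTc
  omega

end Pool.Agent.H21.EW
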