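import Pool.Agent.H21.EW.Struct

/-!
Even wheels, part 5: the exact minimum degree threshold, upper bound.
-/

namespace Pool.Agent.H21.EW

open Finset

/-- the threshold `d(n,k)` -/
def thr (n k : ℕ) : ℕ :=
  if (k - 1) % 2 = 1 ∧ ((n + k) / 2) % 2 = 1 then (n + k) / 2 else (n + k + 1) / 2

variable {V : Type*} [Fintype V] [DecidableEq V]

theorem closed_of_list (G : SimpleGraph V) (S : Finset V) (y0 : V) (zs L : List V) (m : ℕ)
    (h1 : L.Nodup) (h2 : L.length = m) (hm : 1 ≤ m) (h3 : ∀ x ∈ L, x ∈ S)
    (h4 : (L ++ [y0]).head? = ((y0 :: zs) ++ [y0]).head?)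
    (h5 : List.IsChain G.Adj (L ++ [y0])) : ClosedIn G S m := by
  refine ⟨L, h1, h2, h3, y0, ?_, h5⟩
  cases L with
  | nil =>
    simp only [List.length_nil] at h2
    omega
  | cons a l => simpa using h4

theorem handshake (G : SimpleGraph V) [DecidableRel G.Adj] (Q : Finset V) :
    Even (∑ v ∈ Q, (G.neighborFinset v ∩ Q).card) := by
  classical
  let H : SimpleGraph V :=
    { Adj := fun x y => G.Adj x y ∧ x ∈ Q ∧ y ∈ Q
      symm := ⟨fun x y h => ⟨h.1.symm, h.2.2, h.2.1⟩⟩
      loopless := ⟨fun x h => G.loopless.irrefl x h.1⟩ }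
  have h1 := H.sum_degrees_eq_twice_card_edges
  have h2 : ∑ v, H.degree v = ∑ v ∈ Q, (G.neighborFinset v ∩ Q).card := by
    rw [← Finset.sum_subset (Finset.subset_univ Q)]
    · apply Finset.sum_congr rfl
      intro v hv
      rw [← SimpleGraph.card_neighborFinset_eq_degree]
      congr 1
      ext w
      simp only [SimpleGraph.mem_neighborFinset, mem_inter, H]
      tauto
    · intro v _ hv
      rw [← SimpleGraph.card_neighborFinset_eq_degree, Finset.card_eq_zero]
      ext w
      simp only [SimpleGraph.mem_neighborFinset, H]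
      constructor
      · intro h
        exact absurd h.2.1 hv
      · intro h
        simp at h
  rw [h2] at h1
  rw [h1]
  exact even_two_mul _

theorem final (G : SimpleGraph V) [DecidableRel G.Adj] (P Q : Finset V) (hPQ : Disjoint P Q)
    (v : V) (k e r m : ℕ) (ht : 1 ≤ (G.neighborFinset v ∩ Q).card)
    (htk : (G.neighborFinset v ∩ Q).card ≤ k)
    (hre : r * e = 2 * (k - (G.neighborFinset v ∩ Q).card))
    (hrt : r ≤ (G.neighborFinset v ∩ Q).card)
    (hm : ∀ y ∈ G.neighborFinset v ∩ Q, (P \ G.neighborFinset y).card ≤ m)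
    (S : Finset (List V)) (hS : ∀ s ∈ S, Seg G (G.neighborFinset v ∩ P) e s)
    (hSd : ∀ s ∈ S, ∀ s' ∈ S, s ≠ s' → List.Disjoint s s') (hSc : 2 * m + r ≤ S.card)
    (hbig : 2 * m + 2 * (G.neighborFinset v ∩ Q).card + r * (e + 1) ≤
      (G.neighborFinset v ∩ P).card) :
    ClosedIn G (G.neighborFinset v) (2 * k) := by
  set F := G.neighborFinset v ∩ Q with hF
  set P' := G.neighborFinset v ∩ P with hP'
  have hm' : ∀ y ∈ F, (P' \ G.neighborFinset y).card ≤ m := by
    intro y hy
    refine le_trans (Finset.card_le_card ?_) (hm y hy)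
    exact Finset.sdiff_subset_sdiff Finset.inter_subset_right (Finset.Subset.refl _)
  obtain ⟨y0, zs, hys⟩ : ∃ y0 zs, F.toList = y0 :: zs := by
    cases h : F.toList with
    | nil =>
      have := Finset.length_toList F
      rw [h] at this
      simp only [List.length_nil] at this
      omega
    | cons a l => exact ⟨a, l, rfl⟩
  have hlen : (y0 :: zs).length = F.card := by rw [← hys, Finset.length_toList]
  have hmem : ∀ x ∈ y0 :: zs, x ∈ F := by
    intro x hx
    rw [← hys, Finset.mem_toList] at hx
    exact hx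
  have hy0 : y0 ∈ F := hmem y0 (List.mem_cons_self)
  obtain ⟨L, l1, l2, l3, l4, l5⟩ := segs G P' e m y0 (hm' y0 hy0) r (y0 :: zs) F S
    (by rw [hlen]; exact hrt) (by rw [← hys]; exact Finset.nodup_toList F) hmem
    (fun x hx => hm' x (hmem x hx)) hS
    (fun s hs x hx hxF => by
      have h1 := (hS s hs).2.2.1 x hx
      rw [hP', mem_inter] at h1
      rw [hF, mem_inter] at hxF
      exact (Finset.disjoint_left.1 hPQ) h1.2 hxF.2)
    hSd hSc (by rw [hlen]; omega)
  refine closed_of_list G _ y0 zs L _ l1 (by rw [l2, hlen, hre]; omega) (by omega) ?_ l4 l5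
  intro x hx
  rcases l3 x hx with h | h
  · exact (mem_inter.1 (hmem x h)).1
  · exact (mem_inter.1 h.1).1

theorem wheel_of (G : SimpleGraph V) [DecidableRel G.Adj] (P Q : Finset V)
    (hPQ : Disjoint P Q) (v : V) (k e r m a : ℕ) (hPne : P.Nonempty)
    (hmin : ∀ x ∈ P, a ≤ (G.neighborFinset x ∩ P).card)
    (hmax : ∀ x ∈ P, (G.neighborFinset x ∩ P).card ≤ k - 1)
    (he : e = 1 ∨ e = 2) (hea : e ≤ a)
    (hvm : (P \ G.neighborFinset v).card ≤ m)
    (hm : ∀ y ∈ G.neighborFinset v ∩ Q, (P \ G.neighborFinset y).card ≤ m)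
    (ht : 1 ≤ (G.neighborFinset v ∩ Q).card)
    (htk : (G.neighborFinset v ∩ Q).card ≤ k)
    (hre : r * e = 2 * (k - (G.neighborFinset v ∩ Q).card))
    (hrt : r ≤ (G.neighborFinset v ∩ Q).card)
    (hR0 : (e + 1) * (2 * m + r) + m ≤ 24 * (a + 1 - e)) (hP : 1000 * k ≤ P.card) :
    ClosedIn G (G.neighborFinset v) (2 * k) := by
  obtain ⟨x0, hx0⟩ := hPne
  have hak : a ≤ k - 1 := le_trans (hmin x0 hx0) (hmax x0 hx0)
  have hk1 : 1 ≤ k := by omega
  have hPP : P \ (G.neighborFinset v ∩ P) = P \ G.neighborFinset v := by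
    ext x
    simp only [mem_sdiff, mem_inter]
    tauto
  have hr1 : r * (e + 1) ≤ (e + 1) * (2 * m + r) := by
    rw [mul_comm]; apply Nat.mul_le_mul_left; omega
  obtain ⟨S, hS1, hS2, hS3⟩ := supply G (G.neighborFinset v ∩ P) e he (2 * m + r) (by
    intro R hR
    refine supply_count G P (G.neighborFinset v ∩ P) R a e (k - 1)
      ((e + 1) * (2 * m + r) + m) Finset.inter_subset_right hmin hmax hea ?_ ?_
    · rw [hPP]; omega
    · set R0 := (e + 1) * (2 * m + r) + m with hR0def
      set s := a + 1 - e with hs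
      have hs0 : 0 < s := by omega
      have hsk : s ≤ k := by omega
      calc R0 * (k - 1) + R0 * s = R0 * (k - 1 + s) := by ring
        _ ≤ (24 * s) * (k - 1 + s) := Nat.mul_le_mul_right _ hR0
        _ ≤ (24 * s) * (2 * k) := Nat.mul_le_mul_left _ (by omega)
        _ = (48 * k) * s := by ring
        _ < (1000 * k) * s := Nat.mul_lt_mul_of_pos_right (by omega) hs0
        _ ≤ P.card * s := Nat.mul_le_mul_right _ hP)
  refine final G P Q hPQ v k e r m ht htk hre hrt hm S hS2 hS3 (by omega) ?_
  have h1 : (P \ G.neighborFinset v).card + (G.neighborFinset v ∩ P).card = P.card := by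
    rw [Finset.inter_comm, Finset.card_sdiff_add_card_inter]
  omega

/-- the set-up after the structure lemma -/
structure Bip (G : SimpleGraph V) [DecidableRel G.Adj] (n : ℕ) (P Q : Finset V) : Prop where
  disj : Disjoint P Q
  cov : ∀ x, x ∈ P ∨ x ∈ Q
  neP : P.Nonempty
  neQ : Q.Nonempty
  inP : ∀ u ∈ P, 30 * (G.neighborFinset u ∩ P).card ≤ n
  inQ : ∀ u ∈ Q, 30 * (G.neighborFinset u ∩ Q).card ≤ n

theorem Bip.symm {G : SimpleGraph V} [DecidableRel G.Adj] {n : ℕ} {P Q : Finset V}
    (h : Bip G n P Q) : Bip G n Q P :=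
  ⟨h.disj.symm, fun x => (h.cov x).symm, h.neQ, h.neP, h.inQ, h.inP⟩

theorem Bip.deg {G : SimpleGraph V} [DecidableRel G.Adj] {n : ℕ} {P Q : Finset V}
    (h : Bip G n P Q) (u : V) :
    (G.neighborFinset u ∩ P).card + (G.neighborFinset u ∩ Q).card =
      (G.neighborFinset u).card := by
  rw [← Finset.card_union_of_disjoint]
  · congr 1
    ext z
    have := h.cov z
    simp only [mem_union, mem_inter]
    tauto
  · rw [Finset.disjoint_left]
    intro z hz hz'
    simp only [mem_inter] at hz hz'
    exact (Finset.disjoint_left.1 h.disj) hz.2 hz'.2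

theorem Bip.card {G : SimpleGraph V} [DecidableRel G.Adj] {n : ℕ} {P Q : Finset V}
    (h : Bip G n P Q) (hn : Fintype.card V = n) : P.card + Q.card = n := by
  rw [← Finset.card_union_of_disjoint h.disj, ← hn]
  rw [Finset.card_eq_iff_eq_univ]
  ext x
  have := h.cov x
  simp only [mem_union, mem_univ, iff_true]
  exact this

theorem Bip.miss {G : SimpleGraph V} [DecidableRel G.Adj] {n : ℕ} {P Q : Finset V}
    (_h : Bip G n P Q) (u : V) :
    (P \ G.neighborFinset u).card + (G.neighborFinset u ∩ P).card = P.card := by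
  rw [Finset.inter_comm, Finset.card_sdiff_add_card_inter]

theorem inner_lt (G : SimpleGraph V) [DecidableRel G.Adj] (n k : ℕ)
    (hn : Fintype.card V = n) (hk : 1 ≤ k) (hkn : 1000 * k ≤ n) (P Q : Finset V)
    (h : Bip G n P Q) (hδ : ∀ v, n ≤ 2 * (G.neighborFinset v).card)
    (v : V) (hv : v ∈ Q) (hvk : k ≤ (G.neighborFinset v ∩ Q).card) :
    ClosedIn G (G.neighborFinset v) (2 * k) := by
  have hc := h.card hn
  -- sizes
  have hQbig : 14 * n ≤ 30 * Q.card := by
    obtain ⟨x, hx⟩ := h.neP
    have h1 := h.deg x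
    have h2 := h.inP x hx
    have h3 := hδ x
    have h4 : (G.neighborFinset x ∩ Q).card ≤ Q.card :=
      Finset.card_le_card Finset.inter_subset_right
    omega
  have hmiss : ∀ y ∈ Q, 15 * (P \ G.neighborFinset y).card ≤ n := by
    intro y hy
    have h1 := h.deg y
    have h2 := h.inQ y hy
    have h3 := hδ y
    have h4 := h.miss y
    omega
  obtain ⟨T, hT1, hT2⟩ := Finset.exists_subset_card_eq hvk
  obtain ⟨y0, zs, hys⟩ : ∃ y0 zs, T.toList = y0 :: zs := by
    cases h : T.toList with
    | nil =>
      have := Finset.length_toList T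
      rw [h] at this
      simp only [List.length_nil] at this
      omega
    | cons a l => exact ⟨a, l, rfl⟩
  have hlen : (y0 :: zs).length = k := by rw [← hys, Finset.length_toList, hT2]
  have hmem : ∀ x ∈ y0 :: zs, x ∈ T := by
    intro x hx
    rw [← hys, Finset.mem_toList] at hx
    exact hx
  have hTQ : ∀ x ∈ T, x ∈ Q := fun x hx => (mem_inter.1 (hT1 hx)).2
  have hTN : ∀ x ∈ T, x ∈ G.neighborFinset v := fun x hx => (mem_inter.1 (hT1 hx)).1
  have hP'big : 14 * n ≤ 30 * (G.neighborFinset v ∩ P).card := by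
    have h1 := h.deg v
    have h2 := h.inQ v hv
    have h3 := hδ v
    omega
  have key : ∀ y y' : V, y ∈ Q → y' ∈ Q → 2 * k ≤
      ((G.neighborFinset v ∩ P) ∩ G.neighborFinset y ∩ G.neighborFinset y').card := by
    intro y y' hy hy'
    have hsub : (G.neighborFinset v ∩ P) ⊆
        ((G.neighborFinset v ∩ P) ∩ G.neighborFinset y ∩ G.neighborFinset y') ∪
        (P \ G.neighborFinset y) ∪ (P \ G.neighborFinset y') := by
      intro x hx
      simp only [mem_union, mem_inter, mem_sdiff] at hx ⊢
      tauto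
    have h0 := Finset.card_le_card hsub
    have h1 := Finset.card_union_le
      (((G.neighborFinset v ∩ P) ∩ G.neighborFinset y ∩ G.neighborFinset y') ∪
        (P \ G.neighborFinset y)) (P \ G.neighborFinset y')
    have h2 := Finset.card_union_le
      ((G.neighborFinset v ∩ P) ∩ G.neighborFinset y ∩ G.neighborFinset y')
        (P \ G.neighborFinset y)
    have h3 := hmiss y hy
    have h4 := hmiss y' hy'
    omega
  obtain ⟨L, l1, l2, l3, l4, l5⟩ := triv G (G.neighborFinset v ∩ P) (2 * k) y0 (y0 :: zs) T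
    (by rw [← hys]; exact Finset.nodup_toList T) hmem (by rw [hlen, hT2]; omega)
    (by
      rw [List.isChain_iff_getElem]
      intro i hi
      have hall : ∀ x ∈ (y0 :: zs) ++ [y0], x ∈ Q := by
        intro x hx
        rw [List.mem_append] at hx
        rcases hx with hx | hx
        · exact hTQ x (hmem x hx)
        · simp only [List.mem_singleton] at hx
          subst hx
          exact hTQ x (hmem x (List.mem_cons_self))
      exact key _ _ (hall _ (List.getElem_mem _)) (hall _ (List.getElem_mem _)))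
  refine closed_of_list G _ y0 zs L _ l1 (by rw [l2, hlen]) (by omega) ?_ l4 l5
  intro x hx
  rcases l3 x hx with h | h
  · exact hTN x (hmem x h)
  · exact (mem_inter.1 h.1).1

theorem core (G : SimpleGraph V) [DecidableRel G.Adj] (n k : ℕ)
    (hn : Fintype.card V = n) (hk : 3 ≤ k) (hkn : 10 ^ 9 * k ≤ n) (P Q : Finset V)
    (h : Bip G n P Q) (hle : P.card ≤ Q.card)
    (hδ : ∀ v, thr n k ≤ (G.neighborFinset v).card)
    (hno : ∀ v, ¬ ClosedIn G (G.neighborFinset v) (2 * k)) : False := by
  set d := thr n k with hd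
  have hd1 : n + k ≤ 2 * d + 1 := by rw [hd]; unfold thr; split_ifs <;> omega
  have hd2 : k % 2 = 1 → n + k ≤ 2 * d := by
    intro hk2; rw [hd]; unfold thr
    split_ifs with hc
    · omega
    · omega
  have hd3 : 2 * d + 1 = n + k → d % 2 = 1 ∧ k % 2 = 0 := by
    intro hk2
    rw [hd] at hk2 ⊢
    unfold thr at hk2 ⊢
    split_ifs at hk2 ⊢ with hc
    · omega
    · omega
  have hδ' : ∀ v, n ≤ 2 * (G.neighborFinset v).card := fun v => by
    have := hδ v
    omega
  have tQ : ∀ v ∈ Q, (G.neighborFinset v ∩ Q).card ≤ k - 1 := by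
    intro v hv
    by_contra hcon
    exact hno v (inner_lt G n k hn (by omega) (by omega) P Q h hδ' v hv (by omega))
  have tP : ∀ v ∈ P, (G.neighborFinset v ∩ P).card ≤ k - 1 := by
    intro v hv
    by_contra hcon
    exact hno v (inner_lt G n k hn (by omega) (by omega) Q P h.symm hδ' v hv (by omega))
  have hc := h.card hn
  obtain ⟨v1, hv1⟩ := h.neQ
  obtain ⟨w1, hw1⟩ := h.neP
  have hPd : d ≤ P.card + (k - 1) := by
    have h1 := h.deg v1
    have h2 := tQ v1 hv1
    have h3 := hδ v1
    have h4 : (G.neighborFinset v1 ∩ P).card ≤ P.card :=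
      Finset.card_le_card Finset.inter_subset_right
    omega
  have hQd : d ≤ Q.card + (k - 1) := by
    have h1 := h.deg w1
    have h2 := tP w1 hw1
    have h3 := hδ w1
    have h4 : (G.neighborFinset w1 ∩ Q).card ≤ Q.card :=
      Finset.card_le_card Finset.inter_subset_right
    omega
  obtain ⟨a, ha⟩ : ∃ a, a + Q.card = d := ⟨d - Q.card, by omega⟩
  obtain ⟨b, hb⟩ : ∃ b, b + P.card = d := ⟨d - P.card, by omega⟩
  have hab : a ≤ b := by omega
  have minP : ∀ x ∈ P, a ≤ (G.neighborFinset x ∩ P).card := by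
    intro x _
    have h1 := h.deg x
    have h3 := hδ x
    have h4 : (G.neighborFinset x ∩ Q).card ≤ Q.card :=
      Finset.card_le_card Finset.inter_subset_right
    omega
  have minQ : ∀ x ∈ Q, b ≤ (G.neighborFinset x ∩ Q).card := by
    intro x _
    have h1 := h.deg x
    have h3 := hδ x
    have h4 : (G.neighborFinset x ∩ P).card ≤ P.card :=
      Finset.card_le_card Finset.inter_subset_right
    omega
  have missQ : ∀ y ∈ Q, (P \ G.neighborFinset y).card ≤ k - 1 - b := by
    intro y hy
    have h1 := h.deg y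
    have h2 := tQ y hy
    have h3 := hδ y
    have h4 := h.miss y
    omega
  have missP : ∀ y ∈ P, (Q \ G.neighborFinset y).card ≤ k - 1 - a := by
    intro y hy
    have h1 := h.deg y
    have h2 := tP y hy
    have h3 := hδ y
    have h4 := h.symm.miss y
    omega
  have hPbig : 1000 * k ≤ P.card := by omega
  have hQbig : 1000 * k ≤ Q.card := by omega
  rcases Nat.lt_or_ge a 1 with ha0 | ha1
  · -- a = 0
    have hb' : b = k - 1 := by
      have := minQ v1 hv1
      have := tQ v1 hv1
      omega
    obtain ⟨e1, e2⟩ := hd3 (by omega)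
    have hsum : ∑ v ∈ Q, (G.neighborFinset v ∩ Q).card = Q.card * (k - 1) := by
      rw [← smul_eq_mul, ← Finset.sum_const]
      apply Finset.sum_congr rfl
      intro v hv
      have := minQ v hv
      have := tQ v hv
      omega
    have hev := handshake G Q
    rw [hsum, Nat.even_mul] at hev
    rcases hev with hev | hev
    · rw [Nat.even_iff] at hev
      omega
    · rw [Nat.even_iff] at hev
      omega
  · rcases Nat.lt_or_ge a 2 with ha2 | ha2
    · -- a = 1
      have ha' : a = 1 := by omega
      by_cases hex : ∃ v ∈ Q, 2 * (k - (G.neighborFinset v ∩ Q).card) ≤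
          (G.neighborFinset v ∩ Q).card
      · obtain ⟨v, hv, hvt⟩ := hex
        have h1 := minQ v hv
        have h2 := tQ v hv
        refine hno v (wheel_of G P Q h.disj v k 1
          (2 * (k - (G.neighborFinset v ∩ Q).card)) (k - 1 - b) a h.neP minP tP
          (Or.inl rfl) ha1 (missQ v hv) (fun y hy => missQ y (mem_inter.1 hy).2)
          (by omega) (by omega) (by ring) hvt (by omega) hPbig)
      · push Not at hex
        have h1 := minQ v1 hv1
        have h2 := tQ v1 hv1
        have h3 := hex v1 hv1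
        have hk4 : k = 4 := by
          rcases Nat.mod_two_eq_zero_or_one k with hk2 | hk2
          · omega
          · have := hd2 hk2
            omega
        have hb2 : b = 2 := by omega
        obtain ⟨e1, e2⟩ := hd3 (by omega)
        obtain ⟨w, hw, hw2⟩ : ∃ w ∈ P, 2 ≤ (G.neighborFinset w ∩ P).card := by
          by_contra hcon
          push Not at hcon
          have hsum : ∑ v ∈ P, (G.neighborFinset v ∩ P).card = P.card := by
            rw [Finset.card_eq_sum_ones]
            apply Finset.sum_congr rfl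
            intro v hv
            have := minP v hv
            have := hcon v hv
            omega
          have hev := handshake G P
          rw [hsum, Nat.even_iff] at hev
          omega
        have h4 := tP w hw
        refine hno w (wheel_of G Q P h.disj.symm w k 2
          (k - (G.neighborFinset w ∩ P).card) (k - 1 - a) b h.neQ minQ tQ
          (Or.inr rfl) (by omega) (missP w hw) (fun y hy => missP y (mem_inter.1 hy).2)
          (by omega) (by omega) (by ring) (by omega) (by omega) hQbig)
    · -- a ≥ 2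
      have h1 := minQ v1 hv1
      have h2 := tQ v1 hv1
      have h2b : k ≤ 2 * b := by
        rcases Nat.mod_two_eq_zero_or_one k with hk2 | hk2
        · omega
        · have := hd2 hk2
          omega
      refine hno v1 (wheel_of G P Q h.disj v1 k 2
        (k - (G.neighborFinset v1 ∩ Q).card) (k - 1 - b) a h.neP minP tP
        (Or.inr rfl) ha2 (missQ v1 hv1) (fun y hy => missQ y (mem_inter.1 hy).2)
        (by omega) (by omega) (by ring) (by omega) (by omega) hPbig)

theorem upper (G : SimpleGraph V) [DecidableRel G.Adj] (n k : ℕ)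
    (hn : Fintype.card V = n) (hk : 3 ≤ k) (hkn : 10 ^ 9 * k ≤ n)
    (hδ : ∀ v, thr n k ≤ (G.neighborFinset v).card) : HasWheel G k := by
  by_contra hcon
  have hno : ∀ v, ¬ ClosedIn G (G.neighborFinset v) (2 * k) := fun v hv =>
    hcon (hasWheel_of_closedIn (by omega) hv)
  have hd1 : n + k ≤ 2 * thr n k + 1 := by unfold thr; split_ifs <;> omega
  have hδ' : ∀ v, n ≤ 2 * (G.neighborFinset v).card := fun v => by
    have := hδ v
    omega
  obtain ⟨A, hA1, hA2, hA3, hA4⟩ := structure_lemma G n hn (by omega) hδ' (fun v => by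
    by_contra hc
    push Not at hc
    exact hno v (dense_cycle G (G.neighborFinset v) k n hn (by omega) hkn hc))
  have hB : Bip G n A Aᶜ := ⟨disjoint_compl_right, fun x => by
    rw [mem_compl]; exact em _, hA1, hA2, hA3, hA4⟩
  rcases le_total A.card Aᶜ.card with hle | hle
  · exact core G n k hn hk hkn A Aᶜ hB hle hδ hno
  · exact core G n k hn hk hkn Aᶜ A hB.symm hle hδ hno

end Pool.Agent.H21.EW
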